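import Mathlib
import Pool.Agent.H.MP_7934a7_lc.h89.Sep
import Pool.Agent.H.MP_7934a7_lc.h89.Split

/-!
# Which questions to a language in `NO_2 ∩ YO_2` are harmless for `NO_2`

(1) There is an oracle `O` and a language `A` in `UP^O ∩ coUP^O` (so in `NO_2^O ∩ YO_2^O`) such that

* `L` (the instances all of whose positions are in `A`) is in `coNP^O`, in `coRP^A`, and in
  `NO_2^A` by the verifier that asks the ONE question `(x, z) ∈ A?`, but is not in `NO_2^O`;
* the tally set `T` (some instance of length `n` is in `L`) is decided by the two-prover verifier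
  that asks the ONE question `(y, z) ∈ A?`, but is not in `S_2^O`.

(2) Relative to every oracle `O` and for every language `B` in `NO_2^O ∩ YO_2^O`, questions to `B`
that depend only on `(x, y)` or only on `z` are harmless for `NO_2`.
-/

namespace Pool.Agent.Results.MP_7934a7_lc.OneQuestion

open Pool.Agent.H.MP_7934a7_lc.h89.OneQ

/-- **Main theorem.** (1) For every sequence of verifiers whose string lengths and numbers of
questions are, infinitely often, at most `2^(n/8)` in total (in particular for all polynomially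
bounded ones), there is an oracle with unique witnesses and with the promise, for which `L` is
decided by the single question `(x, z) ∈ A?` and the tally set `T` by the single question
`(y, z) ∈ A?`, while every verifier of the sequence violates the `NO_2` condition for `L`, and the
`S_2` condition for `T`, at infinitely many lengths.
(2) Questions to a language `B` in `NO_2 ∩ YO_2` that depend only on `(x, y)` or only on `z` are
harmless, relative to every oracle. -/
theorem result :
    (∀ V : ℕ → Verifier, (∀ i N, ∃ n ≥ N, (V i).len n + (V i).cost n ≤ 2 ^ (n / 8)) →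
      ∃ O : World, Valid O ∧ Promise O ∧ (∀ n, AskXZ O n) ∧ (∀ n, AskYZ O n) ∧
        (∀ i N, ∃ n ≥ N, ¬ (V i).NO2 O n {x | InL O n x}) ∧
        (∀ i N, ∃ n ≥ N, ¬ (V i).S2 O n (InT O n))) ∧
    (∀ (U : SplitVerifier) (V₁ V₂ : Verifier) (m r : ℕ → ℕ),
      (∀ n, ∀ k ≤ U.size n, V₁.len k ≤ m n ∧ V₂.len k ≤ m n) →
      (∀ n, ∀ k ≤ U.size n, V₁.cost k ≤ r n ∧ V₂.cost k ≤ r n) →
      ∃ V : Verifier,
        (∀ n, V.len n = U.len n + (U.cost n + (U.size n + 1)) * (1 + 2 * m n)) ∧
        (∀ n, V.cost n = U.cost n * (2 * r n + 3)) ∧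
        ∀ (O : World) (B : Lang) (n : ℕ) (S : Set (Ins n)),
          (∀ k ≤ U.size n, V₁.NO2 O k (B k) ∧ V₂.YO2 O k (B k)) →
          U.NO2 O B n S → V.NO2 O n S) := by
  refine ⟨fun V hV => ?_, split⟩
  obtain ⟨O, hO, hP, h⟩ := diagonal (fun i => (V (i / 2), decide (i % 2 = 1)))
    (fun i N => hV (i / 2) N)
  refine ⟨O, hO, hP, askXZ hO hP, askYZ hO hP, fun i N => ?_, fun i N => ?_⟩
  · obtain ⟨n, hn, h'⟩ := h (2 * i + 1) N
    refine ⟨n, hn, ?_⟩
    have e1 : (2 * i + 1) / 2 = i := by omega
    have e2 : (2 * i + 1) % 2 = 1 := by omega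
    simp only [e1, e2, decide_true, Good, if_true] at h'
    exact h'
  · obtain ⟨n, hn, h'⟩ := h (2 * i) N
    refine ⟨n, hn, ?_⟩
    have e1 : 2 * i / 2 = i := by omega
    have e2 : ¬ (2 * i) % 2 = 1 := by omega
    simp only [e1, e2, decide_false, Good, Bool.false_eq_true, if_false] at h'
    exact h'

end Pool.Agent.Results.MP_7934a7_lc.OneQuestion
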