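import Mathlib
import Pool.Agent.H.MP_7934a7_lc.helper50.Core

/-!
# An oracle relative to which `NO_2 ∩ YO_2` is not low for `NO_2`

There is an oracle `O`, a language `A` in `UP^O ∩ coUP^O` (so in `NO_2^O ∩ YO_2^O`) and a tally
language that is in `O_2^A` (even in `BPP^A`), but is decided by no `S_2^O` verifier (so it is not
in `NO_2^O`), even if the verifier is computationally unbounded and has strings and numbers of
oracle questions of size `2^(n/8)`.
-/

namespace Pool.Agent.Results.MP_7934a7_lc.OracleSeparation

open Finset

/-- positions (the strings whose value is certified by the oracle) of length `n` -/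
abbrev Pos (n : ℕ) := Fin n → Bool

/-- witness strings for the positions of length `n` -/
abbrev Wit (n : ℕ) := Fin (2 * n) → Bool

/-- An oracle. `O n u w = some b`: the witness `w` certifies that position `u` has value `b`.
`O n u w = none`: the string `w` certifies nothing about `u`.
As a language: `{(u, b, w) | O |u| u w = some b}`. -/
abbrev World := (n : ℕ) → Pos n → Wit n → Option Bool

/-- every position has exactly one witness (and so exactly one value) -/
def Valid (O : World) : Prop := ∀ (n : ℕ) (u : Pos n), ∃! w : Wit n, ∃ b : Bool, O n u w = some b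

/-- position `u` has the certified value `b` -/
def HasValue (O : World) (n : ℕ) (u : Pos n) (b : Bool) : Prop := ∃ w : Wit n, O n u w = some b

/-- number of positions of length `n` with value `b` -/
noncomputable def count (O : World) (n : ℕ) (b : Bool) : ℕ := {u : Pos n | HasValue O n u b}.ncard

/-- at every length all but at most `2^(n/2)` of the `2^n` positions have the same value -/
def Promise (O : World) : Prop :=
  ∀ n : ℕ, count O n false ≤ 2 ^ (n / 2) ∨ count O n true ≤ 2 ^ (n / 2)

/-- the tally language: `1^n` is in it iff most positions of length `n` have value `true` -/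
def Majority (O : World) (n : ℕ) : Prop := count O n false < count O n true

/-- Adaptive algorithms with output in `{0,1}` that ask the oracle for values `O n u w`, of all
lengths `n`. -/
inductive Alg : Type
  | out (b : Bool) : Alg
  | look (n : ℕ) (u : Pos n) (w : Wit n) (next : Option Bool → Alg) : Alg

/-- run an algorithm relative to an oracle -/
def Alg.run (O : World) : Alg → Bool
  | .out b => b
  | .look n u w next => (next (O n u w)).run O

/-- the algorithm asks at most `k` questions on every path -/
def Alg.AtMost : Alg → ℕ → Prop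
  | .out _, _ => True
  | .look _ _ _ _, 0 => False
  | .look _ _ _ next, k + 1 => ∀ a, (next a).AtMost k

/-- A two-prover verifier on the inputs `1^n`: from the strings `y` and `z` of the two provers it
computes, in an arbitrary way, an adaptive algorithm that asks the oracle questions. -/
structure Verifier where
  /-- length of the strings of the provers -/
  len : ℕ → ℕ
  /-- bound for the number of questions -/
  cost : ℕ → ℕ
  /-- the computation of the verifier -/
  alg : (n : ℕ) → (Fin (len n) → Bool) → (Fin (len n) → Bool) → Alg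
  alg_cost : ∀ n y z, (alg n y z).AtMost (cost n)

/-- the value of the verifier -/
def Verifier.value (V : Verifier) (O : World) (n : ℕ) (y z : Fin (V.len n) → Bool) : Bool :=
  (V.alg n y z).run O

/-- the `S_2` acceptance condition of the tally language at the input `1^n` -/
def Verifier.Correct (V : Verifier) (O : World) (n : ℕ) : Prop :=
  (Majority O n → ∃ y, ∀ z, V.value O n y z = true) ∧
    (¬ Majority O n → ∃ z, ∀ y, V.value O n y z = false)

/-- The language at length `n` is decided by the protocol `∀ j ∃ i, A(s_i + t_j) = 1` of two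
provers sending three and eight positions, where `A` is the language of the positions with value
`true`. -/
def ThreeEight (O : World) (n : ℕ) : Prop :=
  (Majority O n → ∃ s : Fin 3 → Pos n, ∀ t : Fin 8 → Pos n, ∀ j, ∃ i,
      HasValue O n (fun k => xor (s i k) (t j k)) true) ∧
    (¬ Majority O n → ∃ t : Fin 8 → Pos n, ∀ s : Fin 3 → Pos n, ∃ j, ∀ i,
      HasValue O n (fun k => xor (s i k) (t j k)) false)

/-! ### Counting -/

/-- positions with value `b` at one length -/
noncomputable def valSet {n : ℕ} (g : Pos n → Wit n → Option Bool) (b : Bool) : Finset (Pos n) :=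
  by classical exact univ.filter (fun u => ∃ w, g u w = some b)

lemma count_eq (O : World) (n : ℕ) (b : Bool) : count O n b = (valSet (O n) b).card := by
  classical
  unfold count
  rw [← Set.ncard_coe_finset]
  congr 1
  ext u
  simp [valSet, HasValue]

lemma mem_valSet {O : World} {n : ℕ} {u : Pos n} {b : Bool} (h : HasValue O n u b) :
    u ∈ valSet (O n) b := by
  classical
  simp only [valSet, mem_filter, mem_univ, true_and]
  exact h

lemma hasValue_or {O : World} (hO : Valid O) (n : ℕ) (u : Pos n) :
    HasValue O n u true ∨ HasValue O n u false := by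
  obtain ⟨w, ⟨b, hb⟩, -⟩ := hO n u
  cases b
  · exact Or.inr ⟨w, hb⟩
  · exact Or.inl ⟨w, hb⟩

lemma not_both {O : World} (hO : Valid O) (n : ℕ) (u : Pos n) :
    ¬ (HasValue O n u true ∧ HasValue O n u false) := by
  rintro ⟨⟨w, hw⟩, ⟨w', hw'⟩⟩
  have := (hO n u).unique ⟨true, hw⟩ ⟨false, hw'⟩
  subst this
  rw [hw] at hw'
  simp at hw'

lemma count_add {O : World} (hO : Valid O) (n : ℕ) :
    count O n false + count O n true = 2 ^ n := by
  classical
  have h1 : {u : Pos n | HasValue O n u false} ∪ {u : Pos n | HasValue O n u true} = Set.univ := by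
    ext u
    simpa using (hasValue_or hO n u).symm
  have h2 : Disjoint {u : Pos n | HasValue O n u false} {u : Pos n | HasValue O n u true} := by
    rw [Set.disjoint_left]
    intro u hu hu'
    exact not_both hO n u ⟨hu', hu⟩
  have h3 := Set.ncard_union_eq h2 (Set.toFinite _) (Set.toFinite _)
  rw [h1, Set.ncard_univ] at h3
  unfold count
  rw [← h3]
  simp

lemma half_lt {n : ℕ} (hn : 3 ≤ n) : 2 * 2 ^ (n / 2) < 2 ^ n := by
  calc 2 * 2 ^ (n / 2) = 2 ^ (n / 2 + 1) := by ring
    _ < 2 ^ n := Nat.pow_lt_pow_right (by norm_num) (by omega)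

lemma majority_of_zeros {O : World} (hO : Valid O) {n : ℕ} (hn : 3 ≤ n)
    (h : count O n false ≤ 2 ^ (n / 2)) : Majority O n := by
  have h1 := count_add hO n
  have h2 := half_lt hn
  unfold Majority
  omega

lemma not_majority_of_ones {O : World} (hO : Valid O) {n : ℕ} (hn : 3 ≤ n)
    (h : count O n true ≤ 2 ^ (n / 2)) : ¬ Majority O n := by
  have h1 := count_add hO n
  have h2 := half_lt hn
  unfold Majority
  omega

/-! ### The upper bound: three shifts against eight -/

section cover

variable {P : Type*} [Fintype P] [DecidableEq P]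

lemma cover_yes (σ : P → P → P) (hσ : ∀ t, Function.Injective (fun s => σ s t)) (Z : Finset P)
    (h : Fintype.card P * Z.card ^ 3 < Fintype.card P ^ 3) :
    ∃ s : Fin 3 → P, ∀ t, ∃ i, σ (s i) t ∉ Z := by
  classical
  by_contra hcon
  push Not at hcon
  have h1 : (univ : Finset (Fin 3 → P)) ⊆
      univ.biUnion (fun t => Fintype.piFinset (fun _ : Fin 3 => univ.filter (fun s => σ s t ∈ Z))) := by
    intro s _
    obtain ⟨t, ht⟩ := hcon s
    simp only [mem_biUnion, mem_univ, true_and, Fintype.mem_piFinset, mem_filter]
    exact ⟨t, ht⟩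
  have h2 := card_le_card h1
  have h3 : ∀ t, (univ.filter (fun s => σ s t ∈ Z)).card ≤ Z.card := by
    intro t
    refine card_le_card_of_injOn (fun s => σ s t) ?_ ((hσ t).injOn)
    intro s hs
    simpa using hs
  have h4 : (univ.biUnion (fun t => Fintype.piFinset
      (fun _ : Fin 3 => univ.filter (fun s => σ s t ∈ Z)))).card ≤ Fintype.card P * Z.card ^ 3 := by
    refine le_trans card_biUnion_le ?_
    calc _ ≤ ∑ _t : P, Z.card ^ 3 := by
          refine sum_le_sum (fun t _ => ?_)
          rw [Fintype.card_piFinset]
          simp only [prod_const, card_univ, Fintype.card_fin]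
          exact Nat.pow_le_pow_left (h3 t) 3
      _ = _ := by simp
  rw [card_univ, Fintype.card_fun, Fintype.card_fin] at h2
  omega

lemma cover_no (σ : P → P → P) (hσ : ∀ s, Function.Injective (fun t => σ s t)) (Z : Finset P)
    (h : Fintype.card P ^ 3 * (3 * Z.card) ^ 8 < Fintype.card P ^ 8) :
    ∃ t : Fin 8 → P, ∀ s : Fin 3 → P, ∃ j, ∀ i, σ (s i) (t j) ∉ Z := by
  classical
  by_contra hcon
  push Not at hcon
  have h1 : (univ : Finset (Fin 8 → P)) ⊆
      (univ : Finset (Fin 3 → P)).biUnion (fun s => Fintype.piFinset
        (fun _ : Fin 8 => univ.filter (fun t => ∃ i, σ (s i) t ∈ Z))) := by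
    intro t _
    obtain ⟨s, hs⟩ := hcon t
    simp only [mem_biUnion, mem_univ, true_and, Fintype.mem_piFinset, mem_filter]
    exact ⟨s, hs⟩
  have h2 := card_le_card h1
  have h3 : ∀ s : Fin 3 → P, (univ.filter (fun t => ∃ i, σ (s i) t ∈ Z)).card ≤ 3 * Z.card := by
    intro s
    have hsub : univ.filter (fun t => ∃ i, σ (s i) t ∈ Z) ⊆
        (univ : Finset (Fin 3)).biUnion (fun i => univ.filter (fun t => σ (s i) t ∈ Z)) := by
      intro t ht
      simpa using ht
    refine le_trans (card_le_card hsub) (le_trans card_biUnion_le ?_)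
    calc _ ≤ ∑ _i : Fin 3, Z.card := by
          refine sum_le_sum (fun i _ => ?_)
          refine card_le_card_of_injOn (fun t => σ (s i) t) ?_ ((hσ (s i)).injOn)
          intro t ht
          simpa using ht
      _ = _ := by simp
  have h4 : ((univ : Finset (Fin 3 → P)).biUnion (fun s => Fintype.piFinset
      (fun _ : Fin 8 => univ.filter (fun t => ∃ i, σ (s i) t ∈ Z)))).card
      ≤ Fintype.card P ^ 3 * (3 * Z.card) ^ 8 := by
    refine le_trans card_biUnion_le ?_
    calc _ ≤ ∑ _s : Fin 3 → P, (3 * Z.card) ^ 8 := by
          refine sum_le_sum (fun s _ => ?_)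
          rw [Fintype.card_piFinset]
          simp only [prod_const, card_univ, Fintype.card_fin]
          exact Nat.pow_le_pow_left (h3 s) 8
      _ = _ := by simp
  rw [card_univ, Fintype.card_fun, Fintype.card_fin] at h2
  omega

end cover

lemma xor_inj_left {n : ℕ} (t : Pos n) :
    Function.Injective (fun s : Pos n => (fun k => xor (s k) (t k) : Pos n)) := by
  intro a b hab
  funext k
  have := congrFun hab k
  simp only at this
  revert this
  cases a k <;> cases b k <;> cases t k <;> simp

lemma xor_inj_right {n : ℕ} (s : Pos n) :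
    Function.Injective (fun t : Pos n => (fun k => xor (s k) (t k) : Pos n)) := by
  intro a b hab
  funext k
  have := congrFun hab k
  simp only at this
  revert this
  cases a k <;> cases b k <;> cases s k <;> simp

lemma threeEight {O : World} (hO : Valid O) (hP : Promise O) {n : ℕ} (hn : 13 ≤ n) :
    ThreeEight O n := by
  classical
  have hcardP : Fintype.card (Pos n) = 2 ^ n := by simp
  constructor
  · intro hmaj
    have hz : count O n false ≤ 2 ^ (n / 2) := by
      rcases hP n with h | h
      · exact h
      · exact absurd hmaj (not_majority_of_ones hO (by omega) h)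
    rw [count_eq] at hz
    have hlt : Fintype.card (Pos n) * (valSet (O n) false).card ^ 3 < Fintype.card (Pos n) ^ 3 := by
      rw [hcardP]
      calc 2 ^ n * (valSet (O n) false).card ^ 3 ≤ 2 ^ n * (2 ^ (n / 2)) ^ 3 :=
            Nat.mul_le_mul_left _ (Nat.pow_le_pow_left hz 3)
        _ = 2 ^ (n + n / 2 * 3) := by rw [← pow_mul, ← pow_add]
        _ < 2 ^ (n * 3) := Nat.pow_lt_pow_right (by norm_num) (by omega)
        _ = (2 ^ n) ^ 3 := by rw [pow_mul]
    obtain ⟨s, hs⟩ := cover_yes (fun a b : Pos n => (fun k => xor (a k) (b k) : Pos n))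
      xor_inj_left _ hlt
    refine ⟨s, fun t j => ?_⟩
    obtain ⟨i, hi⟩ := hs (t j)
    refine ⟨i, ?_⟩
    rcases hasValue_or hO n (fun k => xor (s i k) (t j k)) with h | h
    · exact h
    · exact absurd (mem_valSet h) hi
  · intro hmaj
    have hz : count O n true ≤ 2 ^ (n / 2) := by
      rcases hP n with h | h
      · exact absurd (majority_of_zeros hO (by omega) h) hmaj
      · exact h
    rw [count_eq] at hz
    have hlt : Fintype.card (Pos n) ^ 3 * (3 * (valSet (O n) true).card) ^ 8
        < Fintype.card (Pos n) ^ 8 := by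
      rw [hcardP]
      calc (2 ^ n) ^ 3 * (3 * (valSet (O n) true).card) ^ 8
          ≤ (2 ^ n) ^ 3 * (3 * 2 ^ (n / 2)) ^ 8 :=
            Nat.mul_le_mul_left _ (Nat.pow_le_pow_left (Nat.mul_le_mul_left _ hz) 8)
        _ = 6561 * 2 ^ (n * 3 + n / 2 * 8) := by
            rw [mul_pow, ← pow_mul, ← pow_mul, pow_add]; ring
        _ < 8192 * 2 ^ (n * 3 + n / 2 * 8) := by
            have : 0 < 2 ^ (n * 3 + n / 2 * 8) := by positivity
            omega
        _ = 2 ^ (13 + (n * 3 + n / 2 * 8)) := by
            rw [pow_add 2 13]; norm_num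
        _ ≤ 2 ^ (n * 8) := Nat.pow_le_pow_right (by norm_num) (by omega)
        _ = (2 ^ n) ^ 8 := by rw [pow_mul]
    obtain ⟨t, ht⟩ := cover_no (fun a b : Pos n => (fun k => xor (a k) (b k) : Pos n))
      xor_inj_right _ hlt
    refine ⟨t, fun s => ?_⟩
    obtain ⟨j, hj⟩ := ht s
    refine ⟨j, fun i => ?_⟩
    rcases hasValue_or hO n (fun k => xor (s i k) (t j k)) with h | h
    · exact absurd (mem_valSet h) (hj i)
    · exact h

/-! ### Algorithms at one length are decision trees -/

open Pool.Agent.H.MP_7934a7_lc.helper50 (Tree)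

/-- the part of the algorithm that asks at length `n`, the oracle being fixed at other lengths -/
def Alg.toTree (O : World) (n : ℕ) : Alg → Tree (Pos n) (Wit n)
  | .out b => .out b
  | .look k u w next =>
    if h : k = n then .ask (h ▸ u) (h ▸ w) (fun a => (next a).toTree O n)
    else (next (O k u w)).toTree O n

/-- the oracle at length `n` with witnesses `l` and values `v` -/
def world {n : ℕ} (l : Pos n → Wit n) (v : Pos n → Bool) : Pos n → Wit n → Option Bool :=
  fun u w => if w = l u then some (v u) else none

lemma Alg.run_toTree (O : World) (n : ℕ) (l : Pos n → Wit n) (v : Pos n → Bool) (T : Alg) :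
    T.run (Function.update O n (world l v)) = (T.toTree O n).run l v := by
  induction T with
  | out b => simp [Alg.run, Alg.toTree, Tree.run]
  | look k u w next ih =>
    by_cases hk : k = n
    · subst hk
      simp only [Alg.run, Alg.toTree, dif_pos, Function.update_self, Tree.run]
      rw [ih]
      rfl
    · simp only [Alg.run, Alg.toTree, dif_neg hk, Function.update_of_ne hk]
      exact ih _

lemma _root_.Pool.Agent.H.MP_7934a7_lc.helper50.Tree.AtMost.succ {P W : Type*} (T : Tree P W) :
    ∀ k, T.AtMost k → T.AtMost (k + 1) := by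
  induction T with
  | out b => intro k _; simp [Tree.AtMost]
  | ask p w next ih =>
    intro k hk
    cases k with
    | zero => exact absurd hk (by simp [Tree.AtMost])
    | succ k =>
      have hk' : ∀ a, (next a).AtMost k := by simpa [Tree.AtMost] using hk
      have : ∀ a, (next a).AtMost (k + 1) := fun a => ih a k (hk' a)
      simpa [Tree.AtMost] using this

lemma Alg.atMost_toTree (O : World) (n : ℕ) (T : Alg) :
    ∀ k, T.AtMost k → (T.toTree O n).AtMost k := by
  induction T with
  | out b => intro k _; simp [Alg.toTree, Tree.AtMost]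
  | look j u w next ih =>
    intro k hk
    cases k with
    | zero => exact absurd hk (by simp [Alg.AtMost])
    | succ k =>
      have hk' : ∀ a, (next a).AtMost k := by simpa [Alg.AtMost] using hk
      by_cases hj : j = n
      · simp only [Alg.toTree, dif_pos hj, Tree.AtMost]
        exact fun a => ih a k (hk' a)
      · simp only [Alg.toTree, dif_neg hj]
        exact Pool.Agent.H.MP_7934a7_lc.helper50.Tree.AtMost.succ _ _ (ih _ k (hk' _))

/-- largest length of a question -/
def Alg.maxLen : Alg → ℕ
  | .out _ => 0
  | .look k _ _ next => max k (Finset.univ.sup (fun a => (next a).maxLen))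

lemma Alg.run_congr (O O' : World) (T : Alg) (h : ∀ k ≤ T.maxLen, O k = O' k) :
    T.run O = T.run O' := by
  induction T with
  | out r => rfl
  | look k u w next ih =>
    simp only [Alg.run]
    have h1 : O k = O' k := h k (le_max_left _ _)
    rw [h1]
    refine ih _ (fun j hj => h j (le_trans hj ?_))
    exact le_trans (Finset.le_sup (f := fun a => (next a).maxLen) (mem_univ (O' k u w)))
      (le_max_right _ _)

/-! ### One stage -/

lemma bound_one {L C n : ℕ} (hn : 96 ≤ n) (h : L + C ≤ 2 ^ (n / 8)) :
    2 ^ 62 * (8 * (L + 1) + 1) * (C + 1) ≤ 2 ^ n := by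
  set q := n / 8 with hq
  have hQ : 1 ≤ 2 ^ q := Nat.one_le_two_pow
  have h1 : 8 * (L + 1) + 1 ≤ 17 * 2 ^ q := by omega
  have h2 : C + 1 ≤ 2 * 2 ^ q := by omega
  calc 2 ^ 62 * (8 * (L + 1) + 1) * (C + 1)
      ≤ 2 ^ 62 * (17 * 2 ^ q) * (2 * 2 ^ q) :=
        Nat.mul_le_mul (Nat.mul_le_mul_left _ h1) h2
    _ = 34 * 2 ^ (62 + q + q) := by rw [pow_add, pow_add]; ring
    _ ≤ 2 ^ 6 * 2 ^ (62 + q + q) := Nat.mul_le_mul_right _ (by norm_num)
    _ = 2 ^ (6 + (62 + q + q)) := by rw [← pow_add]
    _ ≤ 2 ^ n := Nat.pow_le_pow_right (by norm_num) (by omega)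

lemma bound_two {L C n : ℕ} (hn : 96 ≤ n) (h : L + C ≤ 2 ^ (n / 8)) :
    2 ^ (8 * (L + 1) * (25 * (L + 1) + 2)) < (2 ^ n) ^ (2 ^ (n / 2) + 1) := by
  rw [← pow_mul]
  refine Nat.pow_lt_pow_right (by norm_num) ?_
  set q := n / 8 with hq
  have hQ : 1 ≤ 2 ^ q := Nat.one_le_two_pow
  have h1 : 8 * (L + 1) ≤ 16 * 2 ^ q := by omega
  have h2 : 25 * (L + 1) + 2 ≤ 52 * 2 ^ q := by omega
  have h3 : 0 < 2 ^ (n / 2) := by positivity
  calc 8 * (L + 1) * (25 * (L + 1) + 2)
      ≤ (16 * 2 ^ q) * (52 * 2 ^ q) := Nat.mul_le_mul h1 h2
    _ = 832 * 2 ^ (q + q) := by rw [pow_add]; ring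
    _ ≤ 2 ^ 10 * 2 ^ (q + q) := Nat.mul_le_mul_right _ (by norm_num)
    _ = 2 ^ (10 + (q + q)) := by rw [← pow_add]
    _ ≤ 2 ^ (n / 2) := Nat.pow_le_pow_right (by norm_num) (by omega)
    _ < 2 ^ (n / 2) + 1 := Nat.lt_succ_self _
    _ ≤ n * (2 ^ (n / 2) + 1) := Nat.le_mul_of_pos_left _ (by omega)

lemma stage (V : Verifier) (O : World) (hO : Valid O) (hP : Promise O) {n : ℕ} (hn : 96 ≤ n)
    (hV : V.len n + V.cost n ≤ 2 ^ (n / 8)) :
    ∃ G : Pos n → Wit n → Option Bool, Valid (Function.update O n G) ∧
      Promise (Function.update O n G) ∧ ¬ V.Correct (Function.update O n G) n := by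
  classical
  by_contra hcon
  push Not at hcon
  have hval : ∀ (l : Pos n → Wit n) (v : Pos n → Bool),
      Valid (Function.update O n (world l v)) := by
    intro l v k
    by_cases hk : k = n
    · subst hk
      rw [Function.update_self]
      intro u
      refine ⟨l u, ⟨v u, by simp [world]⟩, ?_⟩
      rintro w ⟨b, hb⟩
      by_contra hw
      simp [world, hw] at hb
    · rw [Function.update_of_ne hk]
      exact hO k
  have hset : ∀ (l : Pos n → Wit n) (v : Pos n → Bool) (b : Bool),
      valSet (world l v) b = univ.filter (fun u => v u = b) := by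
    intro l v b
    ext u
    simp only [valSet, world, mem_filter, mem_univ, true_and]
    constructor
    · rintro ⟨w, hw⟩
      by_cases h : w = l u
      · simpa [h] using hw
      · simp [h] at hw
    · intro h
      exact ⟨l u, by simp [h]⟩
  have hcount : ∀ (l : Pos n → Wit n) (v : Pos n → Bool) (b : Bool),
      count (Function.update O n (world l v)) n b = (univ.filter (fun u => v u = b)).card := by
    intro l v b
    rw [count_eq, Function.update_self, hset]
  have hprom : ∀ (l : Pos n → Wit n) (v : Pos n → Bool) (b : Bool),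
      (univ.filter (fun u => v u = b)).card ≤ 2 ^ (n / 2) →
      Promise (Function.update O n (world l v)) := by
    intro l v b hb k
    by_cases hk : k = n
    · subst hk
      rw [hcount, hcount]
      cases b
      · exact Or.inl hb
      · exact Or.inr hb
    · have h1 : ∀ b, count (Function.update O n (world l v)) k b = count O k b := by
        intro b
        rw [count_eq, count_eq, Function.update_of_ne hk]
      rw [h1, h1]
      exact hP k
  refine Pool.Agent.H.MP_7934a7_lc.helper50.core
    (S := Fin (V.len n) → Bool) (P := Pos n) (W := Wit n)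
    (fun y z => (V.alg n y z).toTree O n) (b := 2 ^ n) (d := V.cost n) (m := V.len n + 1)
    (r := 2 ^ (n / 2)) (by omega) ?_ ?_ ?_ (bound_one hn hV) (bound_two hn hV) ?_
  · simp only [Fintype.card_fun, Fintype.card_bool, Fintype.card_fin]
    exact Nat.pow_le_pow_right (by norm_num) (by omega)
  · intro y z
    exact Alg.atMost_toTree O n _ _ (V.alg_cost n y z)
  · simp only [Fintype.card_fun, Fintype.card_bool, Fintype.card_fin]
    rw [← pow_mul]; congr 1; ring
  · intro s l v hs
    have hs' : (univ.filter (fun u => v u = !s)).card ≤ 2 ^ (n / 2) := by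
      have : univ.filter (fun u => v u = !s) = univ.filter (fun u => v u ≠ s) := by
        ext u
        simp only [mem_filter, mem_univ, true_and]
        cases v u <;> cases s <;> simp
      rw [this]
      exact hs
    have hcor := hcon _ (hval l v) (hprom l v _ hs')
    cases s
    · have hmaj : ¬ Majority (Function.update O n (world l v)) n :=
        not_majority_of_ones (hval l v) (by omega) (by rw [hcount]; simpa using hs')
      obtain ⟨z, hz⟩ := hcor.2 hmaj
      refine ⟨z, fun y => ?_⟩
      have := hz y
      unfold Verifier.value at this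
      rw [Alg.run_toTree] at this
      simpa [Pool.Agent.H.MP_7934a7_lc.helper50.side] using this
    · have hmaj : Majority (Function.update O n (world l v)) n :=
        majority_of_zeros (hval l v) (by omega) (by rw [hcount]; simpa using hs')
      obtain ⟨y, hy⟩ := hcor.1 hmaj
      refine ⟨y, fun z => ?_⟩
      have := hy z
      unfold Verifier.value at this
      rw [Alg.run_toTree] at this
      simpa [Pool.Agent.H.MP_7934a7_lc.helper50.side] using this

/-! ### The diagonal construction -/

/-- stages: an admissible oracle and the length below which it is final -/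
def Stage : Type := {p : World × ℕ // Valid p.1 ∧ Promise p.1}

lemma next_stage (V : Verifier) (hV : ∀ N, ∃ n ≥ N, V.len n + V.cost n ≤ 2 ^ (n / 8)) (s : Stage) :
    ∃ s' : Stage, s.1.2 < s'.1.2 ∧ (∀ k < s.1.2, s'.1.1 k = s.1.1 k) ∧
      ∃ n ≥ s.1.2, ∀ O' : World, (∀ k < s'.1.2, O' k = s'.1.1 k) → ¬ V.Correct O' n := by
  classical
  obtain ⟨⟨O, h⟩, hO, hP⟩ := s
  obtain ⟨n, hn, hsmall⟩ := hV (max h 96)
  have hn1 : h ≤ n := le_trans (le_max_left _ _) hn
  have hn2 : 96 ≤ n := le_trans (le_max_right _ _) hn
  obtain ⟨G, h1, h2, h3⟩ := stage V O hO hP hn2 hsmall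
  let H : ℕ := max n (univ.sup (fun y => univ.sup (fun z => (V.alg n y z).maxLen))) + 1
  refine ⟨⟨(Function.update O n G, H), h1, h2⟩, ?_, ?_, n, hn1, ?_⟩
  · have : n ≤ max n (univ.sup (fun y => univ.sup (fun z => (V.alg n y z).maxLen))) :=
      le_max_left _ _
    simp only [H]
    omega
  · intro k hk
    simp only at hk ⊢
    exact Function.update_of_ne (by omega) _ _
  · intro O' hO' hcor
    apply h3
    have hn3 : O' n = Function.update O n G n := hO' n (by
      simp only [H]
      exact Nat.lt_succ_of_le (le_max_left _ _))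
    have hmaj : Majority O' n ↔ Majority (Function.update O n G) n := by
      unfold Majority
      rw [count_eq, count_eq, count_eq, count_eq, hn3]
    have hval : ∀ y z, V.value O' n y z = V.value (Function.update O n G) n y z := by
      intro y z
      unfold Verifier.value
      refine Alg.run_congr _ _ _ (fun k hk => hO' k ?_)
      simp only [H]
      refine Nat.lt_succ_of_le (le_trans hk ?_)
      refine le_trans ?_ (le_max_right _ _)
      refine le_trans ?_ (Finset.le_sup
        (f := fun y => univ.sup (fun z => (V.alg n y z).maxLen)) (mem_univ y))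
      exact Finset.le_sup (f := fun z => (V.alg n y z).maxLen) (mem_univ z)
    unfold Verifier.Correct at hcor ⊢
    rw [hmaj] at hcor
    simp only [hval] at hcor
    exact hcor

/-- an admissible oracle -/
lemma exists_base : ∃ O : World, Valid O ∧ Promise O := by
  classical
  refine ⟨fun n u w => if w = (fun _ => false) then some true else none, ?_, ?_⟩
  · intro n u
    refine ⟨fun _ => false, ⟨true, by simp⟩, ?_⟩
    rintro w ⟨b, hb⟩
    by_contra hw
    simp [hw] at hb
  · intro n
    left
    have : count (fun n (u : Pos n) (w : Wit n) =>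
        if w = (fun _ => false) then some true else none) n false = 0 := by
      unfold count
      rw [Set.ncard_eq_zero]
      ext u
      simp only [Set.mem_ofPred_eq, Set.mem_empty_iff_false, iff_false, HasValue]
      rintro ⟨w, hw⟩
      by_cases h : w = (fun _ => false)
      · simp [h] at hw
      · simp [h] at hw
    rw [this]
    exact Nat.zero_le _

/-- **Main theorem.** For every sequence of verifiers whose string lengths and numbers of
questions are, infinitely often, at most `2^(n/8)` in total (in particular for all polynomially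
bounded ones), there is an oracle with unique witnesses and with the promise, for which the tally
language of the majority is decided by three shifts against eight (with access to the certified
values), while every verifier of the sequence is wrong at infinitely many lengths. -/
theorem result (V : ℕ → Verifier)
    (hV : ∀ i N, ∃ n ≥ N, (V i).len n + (V i).cost n ≤ 2 ^ (n / 8)) :
    ∃ O : World, Valid O ∧ Promise O ∧ (∀ n ≥ 13, ThreeEight O n) ∧
      ∀ i N, ∃ n ≥ N, ¬ (V i).Correct O n := by
  classical
  obtain ⟨O₀, hO₀, hP₀⟩ := exists_base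
  let nxt : ℕ → Stage → Stage := fun j s =>
    (next_stage (V (Nat.unpair j).1) (hV _) s).choose
  have hnxt := fun (j : ℕ) (s : Stage) => (next_stage (V (Nat.unpair j).1) (hV _) s).choose_spec
  let S : ℕ → Stage := fun j => Nat.rec ⟨(O₀, 0), hO₀, hP₀⟩ (fun j s => nxt j s) j
  have hS : ∀ j, S (j + 1) = nxt j (S j) := fun j => rfl
  have hlt : ∀ j, (S j).1.2 < (S (j + 1)).1.2 := by
    intro j
    rw [hS]
    exact (hnxt j (S j)).1
  have hge : ∀ j, j ≤ (S j).1.2 := by
    intro j
    induction j with
    | zero => exact Nat.zero_le _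
    | succ j ih =>
      have := hlt j
      omega
  have hmono : ∀ i j, i ≤ j → (S i).1.2 ≤ (S j).1.2 := by
    intro i j hij
    induction j, hij using Nat.le_induction with
    | base => exact le_rfl
    | succ j _ ih => exact le_trans ih (hlt j).le
  have hagree : ∀ i j, i ≤ j → ∀ k < (S i).1.2, (S j).1.1 k = (S i).1.1 k := by
    intro i j hij
    induction j, hij using Nat.le_induction with
    | base => intro k _; rfl
    | succ j hj ih =>
      intro k hk
      rw [hS]
      rw [← ih k hk]
      exact (hnxt j (S j)).2.1 k (lt_of_lt_of_le hk (hmono i j hj))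
  let O : World := fun k => (S (k + 1)).1.1 k
  have hO : ∀ j, ∀ k < (S j).1.2, O k = (S j).1.1 k := by
    intro j k hk
    rcases le_total (k + 1) j with h | h
    · exact (hagree (k + 1) j h k (hge (k + 1))).symm
    · exact hagree j (k + 1) h k hk
  have hOv : Valid O := fun n => (S (n + 1)).2.1 n
  have hOp : Promise O := by
    intro n
    have h1 : ∀ b, count O n b = count (S (n + 1)).1.1 n b := by
      intro b
      rw [count_eq, count_eq]
    rw [h1, h1]
    exact (S (n + 1)).2.2 n
  refine ⟨O, hOv, hOp, fun n hn => threeEight hOv hOp hn, ?_⟩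
  intro i N
  obtain ⟨n, hn, hbad⟩ := (hnxt (Nat.pair i N) (S (Nat.pair i N))).2.2
  refine ⟨n, ?_, ?_⟩
  · have h1 : N ≤ Nat.pair i N := Nat.right_le_pair i N
    have h2 := hge (Nat.pair i N)
    omega
  · have h3 : (Nat.unpair (Nat.pair i N)).1 = i := by simp
    have h4 := hbad O (fun k hk => by
      have := hO (Nat.pair i N + 1) k (by rw [hS]; exact hk)
      rw [this, hS])
    rw [h3] at h4
    exact h4

end Pool.Agent.Results.MP_7934a7_lc.OracleSeparation
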