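import Mathlib
import Pool.Agent.H.MP_7934a7_lc.RowPick

/-!
# A black-box barrier for the lowness of `NO_2 ∩ YO_2` for `NO_2` (joint witnesses)

There is an oracle relative to which a language of `coRP^(NP ∩ coNP)`, decided with a universal
string of three positions, is decided by no `NO_2` verifier whose questions at the length of the
input concern only few instances chosen independently of the universal string. Positions and
witnesses may be computed jointly and adaptively from both strings.
-/

namespace Pool.Agent.Results.MP_7934a7_lc.OwnInstances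

open Finset

/-- strings of length `n` -/
abbrev Str (n : ℕ) := Fin n → Bool

/-- An oracle: at every length `n`, every instance `x` and position `u` have one value and one
witness. As a language: `{(n, x, u, b, w) | O n x u = (b, w)}`. -/
abbrev World := (n : ℕ) → Str n → Str n → Bool × Str n

/-- Adaptive algorithms asking the oracle: is `O n x u = p`? -/
inductive Tree : Type
  | out (r : ℕ) : Tree
  | ask (n : ℕ) (x u : Str n) (p : Bool × Str n) (no yes : Tree) : Tree

/-- run relative to an oracle -/
def Tree.run (O : World) : Tree → ℕ
  | .out r => r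
  | .ask n x u p no yes => if O n x u = p then yes.run O else no.run O

/-- maximal number of questions -/
def Tree.depth : Tree → ℕ
  | .out _ => 0
  | .ask _ _ _ _ no yes => max no.depth yes.depth + 1

/-- all questions at length `n` concern instances in `R` -/
def Tree.RowsIn (n : ℕ) (R : Finset (Str n)) : Tree → Prop
  | .out _ => True
  | .ask k x _ _ no yes =>
    (k = n → ∃ v ∈ R, (⟨k, x⟩ : (j : ℕ) × Str j) = ⟨n, v⟩) ∧ no.RowsIn n R ∧ yes.RowsIn n R

/-- A two-prover verifier. On input `x` (of length `n`) and strings `y`, `z` it runs an arbitrary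
adaptive algorithm; at length `n` it asks only about the at most `cost n` instances in
`rows n x y`. -/
structure Verifier where
  /-- length of the strings of the provers -/
  len : ℕ → ℕ
  /-- bound for the number of questions and for the number of instances asked about -/
  cost : ℕ → ℕ
  /-- the algorithm -/
  tree : (n : ℕ) → Str n → Str (len n) → Str (len n) → Tree
  /-- the instances (of the length of the input) which are asked about -/
  rows : (n : ℕ) → Str n → Str (len n) → Finset (Str n)
  depth_le : ∀ n x y z, (tree n x y z).depth ≤ cost n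
  rows_card : ∀ n x y, (rows n x y).card ≤ cost n
  rows_in : ∀ n x y z, (tree n x y z).RowsIn n (rows n x y)

/-- acceptance -/
def Verifier.Accept (V : Verifier) (O : World) (n : ℕ) (x : Str n) (y z : Str (V.len n)) : Prop :=
  (V.tree n x y z).run O = 1

/-- the language: all positions of the instance have value `true` -/
def InL (O : World) (n : ℕ) (x : Str n) : Prop := ∀ u : Str n, (O n x u).1 = true

/-- an instance outside the language has at most `2^(n/2)` positions with value `true` -/
def Promise (O : World) : Prop :=
  ∀ (n : ℕ) (x : Str n), InL O n x ∨ {u : Str n | (O n x u).1 = true}.ncard ≤ 2 ^ (n / 2)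

/-- the `NO_2` condition for the language at length `n` (`z` universal) -/
def Verifier.Correct (V : Verifier) (O : World) (n : ℕ) : Prop :=
  (∀ x : Str n, InL O n x → ∃ y, ∀ z, V.Accept O n x y z) ∧
    (∃ z, ∀ x : Str n, ¬ InL O n x → ∀ y, ¬ V.Accept O n x y z)

/-- three universal positions refute membership for all instances of length `n` outside the
language -/
def ThreePositions (O : World) (n : ℕ) : Prop :=
  ∃ t : Fin 3 → Str n, ∀ x : Str n, ¬ InL O n x → ∃ j, (O n x (t j)).1 = false

/-! ### The upper bound -/

lemma ncard_eq (O : World) (n : ℕ) (x : Str n) :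
    {u : Str n | (O n x u).1 = true}.ncard = (univ.filter (fun u => (O n x u).1 = true)).card := by
  rw [← Set.ncard_coe_finset]
  congr 1
  ext u
  simp

lemma threePositions {O : World} (hP : Promise O) {n : ℕ} (hn : 1 ≤ n) : ThreePositions O n := by
  classical
  unfold ThreePositions
  by_contra hcon
  push Not at hcon
  have h1 : (univ : Finset (Fin 3 → Str n)) ⊆
      (univ.filter (fun x : Str n => ¬ InL O n x)).biUnion (fun x => Fintype.piFinset
        (fun _ : Fin 3 => univ.filter (fun u => (O n x u).1 = true))) := by
    intro t _
    obtain ⟨x, hx, hx'⟩ := hcon t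
    refine mem_biUnion.2 ⟨x, mem_filter.2 ⟨mem_univ _, hx⟩, ?_⟩
    rw [Fintype.mem_piFinset]
    intro j
    refine mem_filter.2 ⟨mem_univ _, ?_⟩
    have := hx' j
    simpa using this
  have h2 := le_trans (card_le_card h1) card_biUnion_le
  have h3 : ∑ x ∈ univ.filter (fun x : Str n => ¬ InL O n x), (Fintype.piFinset
        (fun _ : Fin 3 => univ.filter (fun u => (O n x u).1 = true))).card
      ≤ ∑ _x : Str n, (2 ^ (n / 2)) ^ 3 := by
    refine le_trans (sum_le_sum (g := fun _ => (2 ^ (n / 2)) ^ 3) (fun x hx => ?_)) ?_
    · rw [Fintype.card_piFinset]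
      simp only [prod_const, card_univ, Fintype.card_fin]
      refine Nat.pow_le_pow_left ?_ 3
      rcases hP n x with h | h
      · exact absurd h (mem_filter.1 hx).2
      · rwa [ncard_eq] at h
    · exact sum_le_sum_of_subset (filter_subset _ _)
  have h4 := le_trans h2 h3
  rw [card_univ, Fintype.card_fun, Fintype.card_fin, sum_const, card_univ, smul_eq_mul] at h4
  have h5 : Fintype.card (Str n) = 2 ^ n := by simp
  rw [h5, ← pow_mul, ← pow_mul, ← pow_add] at h4
  have h6 := (Nat.pow_le_pow_iff_right (by norm_num : 1 < 2)).1 h4
  omega

/-! ### One row -/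

open Pool.Agent.H.MP_7934a7_lc.Row

/-- the algorithm as an algorithm on the row `x` of length `n`, all other questions answered -/
def Tree.restrict (O : World) (n : ℕ) (x : Str n) : Tree → RT (Str n) (Str n)
  | .out r => .out r
  | .ask k x' u p no yes =>
    if hk : k = n then
      if hk ▸ x' = x then .ask (hk ▸ u) (hk ▸ p) (no.restrict O n x) (yes.restrict O n x)
      else if O k x' u = p then yes.restrict O n x else no.restrict O n x
    else if O k x' u = p then yes.restrict O n x else no.restrict O n x

lemma Tree.run_restrict (O : World) (n : ℕ) (x : Str n) (R : Str n → Bool × Str n) (T : Tree) :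
    T.run (Function.update O n (Function.update (O n) x R)) = (T.restrict O n x).run R := by
  induction T with
  | out r => rfl
  | ask k x' u p no yes ihn ihy =>
    by_cases hk : k = n
    · subst hk
      by_cases hx : x' = x
      · subst hx
        simp only [Tree.run, Tree.restrict, dif_pos, if_true, RT.run, Function.update_self]
        split_ifs
        · exact ihy
        · exact ihn
      · simp only [Tree.run, Tree.restrict, dif_pos, if_neg hx, Function.update_self,
          Function.update_of_ne hx]
        split_ifs
        · exact ihy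
        · exact ihn
    · simp only [Tree.run, Tree.restrict, dif_neg hk, Function.update_of_ne hk]
      split_ifs
      · exact ihy
      · exact ihn

lemma Tree.depth_restrict (O : World) (n : ℕ) (x : Str n) (T : Tree) :
    (T.restrict O n x).depth ≤ T.depth := by
  induction T with
  | out r => simp [Tree.restrict, RT.depth, Tree.depth]
  | ask k x' u p no yes ihn ihy =>
    have h1 := le_max_left no.depth yes.depth
    have h2 := le_max_right no.depth yes.depth
    simp only [Tree.restrict, Tree.depth]
    split_ifs
    · simp only [RT.depth]
      have := max_le_max ihn ihy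
      omega
    all_goals omega

/-- rows which are not asked about do not matter -/
lemma Tree.run_update (O : World) (n : ℕ) (x : Str n) (R : Finset (Str n)) (hx : x ∉ R)
    (G : Str n → Bool × Str n) (T : Tree) (hT : T.RowsIn n R) :
    T.run (Function.update O n (Function.update (O n) x G)) = T.run O := by
  induction T with
  | out r => rfl
  | ask k x' u p no yes ihn ihy =>
    obtain ⟨h1, h2, h3⟩ := hT
    by_cases hk : k = n
    · subst hk
      obtain ⟨v, hv, hv'⟩ := h1 rfl
      have hv'' : x' = v := by
        simpa using hv'
      have hne : x' ≠ x := by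
        rintro rfl
        exact hx (hv'' ▸ hv)
      simp only [Tree.run, Function.update_self, Function.update_of_ne hne]
      rw [ihn h2, ihy h3]
    · simp only [Tree.run, Function.update_of_ne hk]
      rw [ihn h2, ihy h3]

/-- largest length of a question -/
def Tree.maxLen : Tree → ℕ
  | .out _ => 0
  | .ask k _ _ _ no yes => max k (max no.maxLen yes.maxLen)

lemma Tree.run_congr (O O' : World) (T : Tree) (h : ∀ k ≤ T.maxLen, O k = O' k) :
    T.run O = T.run O' := by
  induction T with
  | out r => rfl
  | ask k x u p no yes ihn ihy =>
    simp only [Tree.maxLen] at h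
    simp only [Tree.run]
    have h1 : O k = O' k := h k (le_max_left _ _)
    rw [h1, ihn (fun j hj => h j (le_trans hj (le_trans (le_max_left _ _) (le_max_right _ _)))),
      ihy (fun j hj => h j (le_trans hj (le_trans (le_max_right _ _) (le_max_right _ _))))]

/-! ### One length -/

/-- the promise at one length -/
def Good (n : ℕ) (M : Str n → Str n → Bool × Str n) : Prop :=
  ∀ x, (∀ u, (M x u).1 = true) ∨ (univ.filter (fun u => (M x u).1 = true)).card ≤ 2 ^ (n / 2)

lemma bounds {a b n : ℕ} (hn : 80 ≤ n) (h : a + b ≤ 2 ^ (n / 8)) :
    8 * (a + 3) * b ≤ 2 ^ (n / 2) ∧ 16 * (a + 3) * b ≤ 2 ^ n ∧ (a + 1) * (b + 1) < 2 ^ n := by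
  set q := n / 8 with hq
  have hq10 : 10 ≤ q := by omega
  have ha : a ≤ 2 ^ q := by omega
  have hb : b ≤ 2 ^ q := by omega
  have h3 : 3 ≤ 2 ^ q := by
    calc 3 ≤ 2 ^ 2 := by norm_num
      _ ≤ 2 ^ q := Nat.pow_le_pow_right (by norm_num) (by omega)
  have h4 : 8 * (a + 3) * b ≤ 2 ^ (2 * q + 4) := by
    calc 8 * (a + 3) * b ≤ 8 * (2 ^ q + 2 ^ q) * 2 ^ q :=
          Nat.mul_le_mul (Nat.mul_le_mul_left _ (by omega)) hb
      _ = 2 ^ (2 * q + 4) := by
          rw [show 2 * q + 4 = q + q + 4 by ring, pow_add, pow_add]; ring
  refine ⟨le_trans h4 (Nat.pow_le_pow_right (by norm_num) (by omega)), ?_, ?_⟩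
  · calc 16 * (a + 3) * b = 2 * (8 * (a + 3) * b) := by ring
      _ ≤ 2 * 2 ^ (2 * q + 4) := Nat.mul_le_mul_left _ h4
      _ = 2 ^ (2 * q + 5) := by rw [pow_succ 2 (2 * q + 4)]; ring
      _ ≤ 2 ^ n := Nat.pow_le_pow_right (by norm_num) (by omega)
  · calc (a + 1) * (b + 1) ≤ (2 ^ q + 2 ^ q) * (2 ^ q + 2 ^ q) :=
          Nat.mul_le_mul (by omega) (by omega)
      _ = 2 ^ (2 * q + 2) := by
          rw [show 2 * q + 2 = q + q + 2 by ring, pow_add, pow_add]; ring
      _ < 2 ^ n := Nat.pow_lt_pow_right (by norm_num) (by omega)

lemma stage (V : Verifier) (O : World) {n : ℕ} (hn : 80 ≤ n) (hG : Good n (O n))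
    (hV : V.len n + V.cost n ≤ 2 ^ (n / 8)) :
    ∃ M : Str n → Str n → Bool × Str n, Good n M ∧ ¬ V.Correct (Function.update O n M) n := by
  classical
  by_contra hcon
  push Not at hcon
  obtain ⟨b1, b2, b3⟩ := bounds hn hV
  have hlt : 2 ^ (n / 2) < 2 ^ n := Nat.pow_lt_pow_right (by norm_num) (by omega)
  have hcardS : Fintype.card (Str n) = 2 ^ n := by simp
  have hup : ∀ (M : Str n → Str n → Bool × Str n) (x : Str n) (R : Str n → Bool × Str n),
      Function.update (Function.update O n M) n
        (Function.update ((Function.update O n M) n) x R)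
      = Function.update O n (Function.update M x R) := by
    intro M x R
    rw [Function.update_self, Function.update_idem]
  have hInL : ∀ (M : Str n → Str n → Bool × Str n) (x : Str n),
      InL (Function.update O n M) n x ↔ ∀ u, (M x u).1 = true := by
    intro M x
    unfold InL
    rw [Function.update_self]
  have key : ∀ j, j ≤ V.len n + 1 → ∃ (M : Str n → Str n → Bool × Str n)
      (Forb : Finset (Str n)) (Zr : Finset (Str (V.len n))),
      Good n M ∧ Forb.card ≤ j * (V.cost n + 1) ∧ Zr.card * 2 ^ j ≤ 2 ^ V.len n ∧
      ∀ z ∉ Zr, ∃ x ∈ Forb, ¬ (∀ u, (M x u).1 = true) ∧ ∃ y, V.rows n x y ⊆ Forb ∧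
        (V.tree n x y z).run (Function.update O n M) = 1 := by
    intro j
    induction j with
    | zero =>
      intro _
      refine ⟨O n, ∅, univ, hG, by simp, ?_, ?_⟩
      · simp
      · intro z hz
        exact absurd (mem_univ z) hz
    | succ j ih =>
      intro hj
      obtain ⟨M, Forb, Zr, hM, hF, hZ, hbeat⟩ := ih (by omega)
      rcases Zr.eq_empty_or_nonempty with hemp | hne
      · refine ⟨M, Forb, Zr, hM, le_trans hF (Nat.mul_le_mul_right _ (Nat.le_succ j)), ?_, hbeat⟩
        rw [hemp]
        simp
      · -- a fresh row
        have hforb : Forb.card < Fintype.card (Str n) := by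
          rw [hcardS]
          refine lt_of_le_of_lt hF (lt_of_le_of_lt ?_ b3)
          exact Nat.mul_le_mul_right _ (by omega)
        obtain ⟨x, hx⟩ : ∃ x, x ∉ Forb := by
          by_contra h
          push Not at h
          have h1 : Forb = univ := eq_univ_of_forall h
          rw [h1, card_univ] at hforb
          exact lt_irrefl _ hforb
        let T : Str (V.len n) → {z // z ∈ Zr} → RT (Str n) (Str n) := fun y z =>
          (V.tree n x y z.1).restrict (Function.update O n M) n x
        haveI : Nonempty {z // z ∈ Zr} := ⟨⟨hne.choose, hne.choose_spec⟩⟩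
        have hyesT : ∀ F : Str n → Str n, ∃ y, ∀ z, (T y z).run (ones F) = 1 := by
          intro F
          have h1 : Good n (Function.update M x (ones F)) := by
            intro v
            by_cases hv : v = x
            · subst hv
              left
              intro u
              rw [Function.update_self]
              rfl
            · rw [Function.update_of_ne hv]
              exact hM v
          have h2 := (hcon _ h1).1 x (by
            rw [hInL]
            intro u
            rw [Function.update_self]
            rfl)
          obtain ⟨y, hy⟩ := h2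
          refine ⟨y, fun z => ?_⟩
          have h3 := hy z.1
          unfold Verifier.Accept at h3
          rw [← hup, Tree.run_restrict] at h3
          exact h3
        obtain ⟨G, y, hG1, hG2⟩ := pick T (V.cost n) (V.len n) (2 ^ (n / 2))
          (fun y z => le_trans (Tree.depth_restrict _ _ _ _) (V.depth_le n x y z.1))
          (by simp) hyesT b1 (by rw [hcardS]; exact b2)
        let M' := Function.update M x G
        let acc : Finset (Str (V.len n)) :=
          Zr.filter (fun z => (V.tree n x y z).run (Function.update O n M') = 1)
        have hacc : ∀ z : {z // z ∈ Zr}, (T y z).run G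
            = (V.tree n x y z.1).run (Function.update O n M') := by
          intro z
          simp only [T, M']
          rw [← Tree.run_restrict, hup]
        have hcard : Zr.card ≤ 2 * acc.card := by
          have h1 : Fintype.card {z // z ∈ Zr} = Zr.card := Fintype.card_coe Zr
          rw [h1] at hG2
          refine le_trans hG2 (Nat.mul_le_mul_left _ ?_)
          refine card_le_card_of_injOn (fun z => z.1) ?_ (fun a _ b _ hab => Subtype.ext hab)
          intro z hz
          have hz' := (mem_filter.1 (mem_coe.1 hz)).2
          refine mem_coe.2 (mem_filter.2 ⟨z.2, ?_⟩)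
          rw [← hacc z]
          exact hz'
        have hone : ¬ (∀ u, (G u).1 = true) := by
          intro h
          have h1 : univ.filter (fun u => (G u).1 = true) = univ :=
            filter_true_of_mem (fun u _ => h u)
          rw [h1, card_univ, hcardS] at hG1
          exact absurd hG1 (not_le.2 hlt)
        refine ⟨M', insert x (Forb ∪ V.rows n x y), Zr \ acc, ?_, ?_, ?_, ?_⟩
        · intro v
          by_cases hv : v = x
          · subst hv
            right
            simp only [M', Function.update_self]
            exact hG1
          · simp only [M', Function.update_of_ne hv]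
            exact hM v
        · calc _ ≤ (Forb ∪ V.rows n x y).card + 1 := card_insert_le _ _
            _ ≤ (Forb.card + (V.rows n x y).card) + 1 := Nat.add_le_add_right (card_union_le _ _) _
            _ ≤ (j * (V.cost n + 1) + V.cost n) + 1 :=
              Nat.add_le_add_right (add_le_add hF (V.rows_card n x y)) _
            _ = (j + 1) * (V.cost n + 1) := by ring
        · have h1 : (Zr \ acc).card + acc.card = Zr.card :=
            card_sdiff_add_card_eq_card (filter_subset _ _)
          have h2 : 2 * (Zr \ acc).card ≤ Zr.card := by omega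
          calc (Zr \ acc).card * 2 ^ (j + 1) = 2 * (Zr \ acc).card * 2 ^ j := by rw [pow_succ]; ring
            _ ≤ Zr.card * 2 ^ j := Nat.mul_le_mul_right _ h2
            _ ≤ _ := hZ
        · intro z hz
          by_cases hzZ : z ∈ Zr
          · have hzacc : z ∈ acc := by
              by_contra h
              exact hz (mem_sdiff.2 ⟨hzZ, h⟩)
            refine ⟨x, mem_insert_self _ _, ?_, y, ?_, (mem_filter.1 hzacc).2⟩
            · simp only [M', Function.update_self]
              exact hone
            · exact subset_trans subset_union_right (subset_insert _ _)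
          · obtain ⟨x₀, hx₀, h1, y₀, h2, h3⟩ := hbeat z hzZ
            have hne' : x₀ ≠ x := fun h => hx (h ▸ hx₀)
            refine ⟨x₀, mem_insert_of_mem (mem_union_left _ hx₀), ?_, y₀, ?_, ?_⟩
            · simp only [M', Function.update_of_ne hne']
              exact h1
            · exact subset_trans h2 (subset_trans subset_union_left (subset_insert _ _))
            · have h4 := Tree.run_update (Function.update O n M) n x (V.rows n x₀ y₀)
                (fun h => hx (h2 h)) G (V.tree n x₀ y₀ z) (V.rows_in n x₀ y₀ z)
              rw [hup] at h4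
              rw [h4]
              exact h3
  obtain ⟨M, Forb, Zr, hM, -, hZ, hbeat⟩ := key (V.len n + 1) le_rfl
  have hZ0 : Zr = ∅ := by
    by_contra h
    have h1 : 1 ≤ Zr.card := card_pos.2 (nonempty_iff_ne_empty.2 h)
    have h2 : 2 ^ (V.len n + 1) ≤ Zr.card * 2 ^ (V.len n + 1) := Nat.le_mul_of_pos_left _ h1
    have h3 : 2 ^ V.len n < 2 ^ (V.len n + 1) := Nat.pow_lt_pow_right (by norm_num) (by omega)
    omega
  obtain ⟨z, hz⟩ := (hcon M hM).2
  obtain ⟨x, -, hx, y, -, hacc⟩ := hbeat z (by rw [hZ0]; exact notMem_empty z)
  exact hz x (by rw [hInL]; exact hx) y hacc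

/-! ### The diagonal construction -/

lemma good_of_promise {O : World} (hP : Promise O) (n : ℕ) : Good n (O n) := by
  intro x
  rcases hP n x with h | h
  · exact Or.inl h
  · exact Or.inr (by rwa [ncard_eq] at h)

lemma promise_of_good {O : World} (h : ∀ n, Good n (O n)) : Promise O := by
  intro n x
  rcases h n x with h | h
  · exact Or.inl h
  · exact Or.inr (by rwa [ncard_eq])

/-- stages: an admissible oracle and the length below which it is final -/
def Stage : Type := {p : World × ℕ // ∀ n, Good n (p.1 n)}

lemma next_stage (V : Verifier) (hV : ∀ N, ∃ n ≥ N, V.len n + V.cost n ≤ 2 ^ (n / 8)) (s : Stage) :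
    ∃ s' : Stage, s.1.2 < s'.1.2 ∧ (∀ k < s.1.2, s'.1.1 k = s.1.1 k) ∧
      ∃ n ≥ s.1.2, ∀ O' : World, (∀ k < s'.1.2, O' k = s'.1.1 k) → ¬ V.Correct O' n := by
  classical
  obtain ⟨⟨O, h⟩, hO⟩ := s
  obtain ⟨n, hn, hsmall⟩ := hV (max h 80)
  have hn1 : h ≤ n := le_trans (le_max_left _ _) hn
  have hn2 : 80 ≤ n := le_trans (le_max_right _ _) hn
  obtain ⟨M, h1, h2⟩ := stage V O hn2 (hO n) hsmall
  let H : ℕ := max n (univ.sup (fun x : Str n => univ.sup (fun y : Str (V.len n) =>
    univ.sup (fun z : Str (V.len n) => (V.tree n x y z).maxLen)))) + 1
  refine ⟨⟨(Function.update O n M, H), ?_⟩, ?_, ?_, n, hn1, ?_⟩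
  · intro k
    by_cases hk : k = n
    · subst hk
      simp only [Function.update_self]
      exact h1
    · simp only [Function.update_of_ne hk]
      exact hO k
  · have : n ≤ max n (univ.sup (fun x : Str n => univ.sup (fun y : Str (V.len n) =>
      univ.sup (fun z : Str (V.len n) => (V.tree n x y z).maxLen)))) := le_max_left _ _
    simp only [H]
    omega
  · intro k hk
    simp only at hk ⊢
    exact Function.update_of_ne (by omega) _ _
  · intro O' hO' hcor
    apply h2
    have hn3 : O' n = Function.update O n M n := hO' n (by
      simp only [H]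
      exact Nat.lt_succ_of_le (le_max_left _ _))
    have hL : ∀ x, InL O' n x ↔ InL (Function.update O n M) n x := by
      intro x
      unfold InL
      rw [hn3]
    have hacc : ∀ x y z, V.Accept O' n x y z ↔ V.Accept (Function.update O n M) n x y z := by
      intro x y z
      unfold Verifier.Accept
      rw [Tree.run_congr O' (Function.update O n M) (V.tree n x y z) (fun k hk => hO' k ?_)]
      simp only [H]
      refine Nat.lt_succ_of_le (le_trans hk (le_trans ?_ (le_max_right _ _)))
      refine le_trans ?_ (Finset.le_sup (f := fun x : Str n => univ.sup (fun y : Str (V.len n) =>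
        univ.sup (fun z : Str (V.len n) => (V.tree n x y z).maxLen))) (mem_univ x))
      refine le_trans ?_ (Finset.le_sup (f := fun y : Str (V.len n) =>
        univ.sup (fun z : Str (V.len n) => (V.tree n x y z).maxLen)) (mem_univ y))
      exact Finset.le_sup (f := fun z : Str (V.len n) => (V.tree n x y z).maxLen) (mem_univ z)
    unfold Verifier.Correct at hcor ⊢
    simpa only [hL, hacc] using hcor

/-- **Main theorem.** For every sequence of such verifiers with strings and costs infinitely often
at most `2^(n/8)` (in particular for all polynomially bounded ones) there is an oracle with the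
promise, for which three universal positions decide the language (with access to the values),
while every verifier of the sequence violates the `NO_2` condition at infinitely many lengths. -/
theorem result (V : ℕ → Verifier)
    (hV : ∀ i N, ∃ n ≥ N, (V i).len n + (V i).cost n ≤ 2 ^ (n / 8)) :
    ∃ O : World, Promise O ∧ (∀ n ≥ 1, ThreePositions O n) ∧
      ∀ i N, ∃ n ≥ N, ¬ (V i).Correct O n := by
  classical
  let O₀ : World := fun _ _ _ => (true, fun _ => true)
  have hO₀ : ∀ n, Good n (O₀ n) := fun n x => Or.inl (fun u => rfl)
  let nxt : ℕ → Stage → Stage := fun j s =>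
    (next_stage (V (Nat.unpair j).1) (hV _) s).choose
  have hnxt := fun (j : ℕ) (s : Stage) => (next_stage (V (Nat.unpair j).1) (hV _) s).choose_spec
  let S : ℕ → Stage := fun j => Nat.rec ⟨(O₀, 0), hO₀⟩ (fun j s => nxt j s) j
  have hS : ∀ j, S (j + 1) = nxt j (S j) := fun j => rfl
  have hlt : ∀ j, (S j).1.2 < (S (j + 1)).1.2 := by
    intro j
    rw [hS]
    exact (hnxt j (S j)).1
  have hge : ∀ j, j ≤ (S j).1.2 := by
    intro j
    induction j with
    | zero => exact Nat.zero_le _
    | succ j ih =>
      have := hlt j
      omega
  have hmono : ∀ i j, i ≤ j → (S i).1.2 ≤ (S j).1.2 := by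
    intro i j hij
    induction j, hij using Nat.le_induction with
    | base => exact le_rfl
    | succ j _ ih => exact le_trans ih (hlt j).le
  have hagree : ∀ i j, i ≤ j → ∀ k < (S i).1.2, (S j).1.1 k = (S i).1.1 k := by
    intro i j hij
    induction j, hij using Nat.le_induction with
    | base => intro k _; rfl
    | succ j hj ih =>
      intro k hk
      rw [hS]
      rw [← ih k hk]
      exact (hnxt j (S j)).2.1 k (lt_of_lt_of_le hk (hmono i j hj))
  let O : World := fun k => (S (k + 1)).1.1 k
  have hO : ∀ j, ∀ k < (S j).1.2, O k = (S j).1.1 k := by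
    intro j k hk
    rcases le_total (k + 1) j with h | h
    · exact (hagree (k + 1) j h k (hge (k + 1))).symm
    · exact hagree j (k + 1) h k hk
  have hOp : Promise O := promise_of_good (fun n => (S (n + 1)).2 n)
  refine ⟨O, hOp, fun n hn => threePositions hOp hn, ?_⟩
  intro i N
  obtain ⟨n, hn, hbad⟩ := (hnxt (Nat.pair i N) (S (Nat.pair i N))).2.2
  refine ⟨n, ?_, ?_⟩
  · have h1 : N ≤ Nat.pair i N := Nat.right_le_pair i N
    have h2 := hge (Nat.pair i N)
    omega
  · have h3 : (Nat.unpair (Nat.pair i N)).1 = i := by simp
    have h4 := hbad O (fun k hk => by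
      have := hO (Nat.pair i N + 1) k (by rw [hS]; exact hk)
      rw [this, hS])
    rw [h3] at h4
    exact h4

end Pool.Agent.Results.MP_7934a7_lc.OwnInstances
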