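import Mathlib
import Pool.Agent.H.MP_7934a7_lc.Halving

/-!
# A black-box barrier for the lowness of `NO_2 ∩ YO_2` for `NO_2`

There is an oracle relative to which a language of `BPP^(NP ∩ coNP)` (hence of
`O_2^(NP ∩ coNP)`) is decided by no two-prover (`S_2`-type) verifier whose witness strings are
supplied by the two provers, even if that verifier has strings and costs of size `2^(n/8)`.
-/

namespace Pool.Agent.Results.MP_7934a7_lc.SuppliedWitnesses

open Finset

/-- positions (queries to the language in `NP ∩ coNP`) of length `n` -/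
abbrev Pos (n : ℕ) := Fin n → Bool

/-- witness strings for the positions of length `n` -/
abbrev Wit (n : ℕ) := Fin (2 * n + 1) → Bool

/-- An oracle: at every length `n`, every witness string `w` certifies nothing or one pair
(position, value). As a language: `{(n, u, b, w) | O n w = some (u, b)}`. -/
abbrev World := (n : ℕ) → Wit n → Option (Pos n × Bool)

/-- every position is certified by exactly one witness string (and with one value) -/
def Valid (O : World) : Prop := ∀ (n : ℕ) (u : Pos n), ∃! w : Wit n, ∃ b : Bool, O n w = some (u, b)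

/-- position `u` has the certified value `b` -/
def HasValue (O : World) (n : ℕ) (u : Pos n) (b : Bool) : Prop := ∃ w : Wit n, O n w = some (u, b)

/-- number of positions of length `n` with value `b` -/
noncomputable def count (O : World) (n : ℕ) (b : Bool) : ℕ := {u : Pos n | HasValue O n u b}.ncard

/-- at every length all but at most `2^(n/2)` of the `2^n` positions have the same value -/
def Promise (O : World) : Prop :=
  ∀ n : ℕ, count O n false ≤ 2 ^ (n / 2) ∨ count O n true ≤ 2 ^ (n / 2)

/-- the tally language: `1^n` is in it iff most positions of length `n` have value `true` -/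
def Majority (O : World) (n : ℕ) : Prop := count O n false < count O n true

/-- Adaptive algorithms that look up witness strings; a look-up of `w` (of length `n`) returns
what `w` certifies. The output is a natural number. -/
inductive Alg : Type
  | out (r : ℕ) : Alg
  | look (n : ℕ) (w : Wit n) (next : Option (Pos n × Bool) → Alg) : Alg

/-- run an algorithm relative to an oracle -/
def Alg.run (O : World) : Alg → ℕ
  | .out r => r
  | .look n w next => (next (O n w)).run O

/-- the algorithm makes at most `k` look-ups on every path -/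
def Alg.AtMost : Alg → ℕ → Prop
  | .out _, _ => True
  | .look _ _ _, 0 => False
  | .look _ _ next, k + 1 => ∀ a, (next a).AtMost k

/-- A two-prover verifier with supplied witnesses, on input `1^n`: from the string `y` of the
first prover it looks up witness strings adaptively, from the string `z` of the second prover it
looks up witness strings adaptively, and then it decides in an arbitrary way from `y`, `z` and
everything it has seen. -/
structure Verifier where
  /-- length of the strings of the provers -/
  len : ℕ → ℕ
  /-- bound for the number of look-ups made for each of the two strings -/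
  cost : ℕ → ℕ
  /-- what is looked up because of `y` -/
  left : (n : ℕ) → (Fin (len n) → Bool) → Alg
  /-- what is looked up because of `z` -/
  right : (n : ℕ) → (Fin (len n) → Bool) → Alg
  left_cost : ∀ n y, (left n y).AtMost (cost n)
  right_cost : ∀ n z, (right n z).AtMost (cost n)
  /-- the final decision -/
  decide : (n : ℕ) → (Fin (len n) → Bool) → (Fin (len n) → Bool) → ℕ → ℕ → Bool

/-- the value of the verifier -/
def Verifier.value (V : Verifier) (O : World) (n : ℕ) (y z : Fin (V.len n) → Bool) : Bool :=
  V.decide n y z ((V.left n y).run O) ((V.right n z).run O)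

/-- the `S_2` acceptance condition of the tally language at the input `1^n` -/
def Verifier.Correct (V : Verifier) (O : World) (n : ℕ) : Prop :=
  (Majority O n → ∃ y, ∀ z, V.value O n y z = true) ∧
    (¬ Majority O n → ∃ z, ∀ y, V.value O n y z = false)

/-- The language at length `n` is decided by the protocol `∀ j ∃ i, A(s_i + t_j) = 1` of two
provers sending three and eight positions, where `A` is the language of the positions with value
`true`. -/
def ThreeEight (O : World) (n : ℕ) : Prop :=
  (Majority O n → ∃ s : Fin 3 → Pos n, ∀ t : Fin 8 → Pos n, ∀ j, ∃ i,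
      HasValue O n (fun k => xor (s i k) (t j k)) true) ∧
    (¬ Majority O n → ∃ t : Fin 8 → Pos n, ∀ s : Fin 3 → Pos n, ∃ j, ∀ i,
      HasValue O n (fun k => xor (s i k) (t j k)) false)

/-! ### Counting -/

open Pool.Agent.H.MP_7934a7_lc (OneValid valSet)

lemma valid_iff (O : World) : Valid O ↔ ∀ n, OneValid (O n) := Iff.rfl

lemma count_eq (O : World) (n : ℕ) (b : Bool) : count O n b = (valSet (O n) b).card := by
  classical
  unfold count
  rw [← Set.ncard_coe_finset]
  congr 1
  ext u
  simp [valSet, HasValue]

lemma mem_valSet {O : World} {n : ℕ} {u : Pos n} {b : Bool} (h : HasValue O n u b) :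
    u ∈ valSet (O n) b := by
  classical
  simp only [valSet, mem_filter, mem_univ, true_and]
  exact h

lemma hasValue_or {O : World} (hO : Valid O) (n : ℕ) (u : Pos n) :
    HasValue O n u true ∨ HasValue O n u false := by
  obtain ⟨w, ⟨b, hb⟩, -⟩ := hO n u
  cases b
  · exact Or.inr ⟨w, hb⟩
  · exact Or.inl ⟨w, hb⟩

lemma not_both {O : World} (hO : Valid O) (n : ℕ) (u : Pos n) :
    ¬ (HasValue O n u true ∧ HasValue O n u false) := by
  rintro ⟨⟨w, hw⟩, ⟨w', hw'⟩⟩
  have := (hO n u).unique ⟨true, hw⟩ ⟨false, hw'⟩
  subst this
  rw [hw] at hw'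
  simp at hw'

lemma count_add {O : World} (hO : Valid O) (n : ℕ) :
    count O n false + count O n true = 2 ^ n := by
  classical
  have h1 : {u : Pos n | HasValue O n u false} ∪ {u : Pos n | HasValue O n u true} = Set.univ := by
    ext u
    simpa using (hasValue_or hO n u).symm
  have h2 : Disjoint {u : Pos n | HasValue O n u false} {u : Pos n | HasValue O n u true} := by
    rw [Set.disjoint_left]
    intro u hu hu'
    exact not_both hO n u ⟨hu', hu⟩
  have h3 := Set.ncard_union_eq h2 (Set.toFinite _) (Set.toFinite _)
  rw [h1, Set.ncard_univ] at h3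
  unfold count
  rw [← h3]
  simp

lemma half_lt {n : ℕ} (hn : 3 ≤ n) : 2 * 2 ^ (n / 2) < 2 ^ n := by
  calc 2 * 2 ^ (n / 2) = 2 ^ (n / 2 + 1) := by ring
    _ < 2 ^ n := Nat.pow_lt_pow_right (by norm_num) (by omega)

lemma majority_of_zeros {O : World} (hO : Valid O) {n : ℕ} (hn : 3 ≤ n)
    (h : count O n false ≤ 2 ^ (n / 2)) : Majority O n := by
  have h1 := count_add hO n
  have h2 := half_lt hn
  unfold Majority
  omega

lemma not_majority_of_ones {O : World} (hO : Valid O) {n : ℕ} (hn : 3 ≤ n)
    (h : count O n true ≤ 2 ^ (n / 2)) : ¬ Majority O n := by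
  have h1 := count_add hO n
  have h2 := half_lt hn
  unfold Majority
  omega

/-! ### The upper bound: three shifts against eight -/

section cover

variable {P : Type*} [Fintype P] [DecidableEq P]

lemma cover_yes (σ : P → P → P) (hσ : ∀ t, Function.Injective (fun s => σ s t)) (Z : Finset P)
    (h : Fintype.card P * Z.card ^ 3 < Fintype.card P ^ 3) :
    ∃ s : Fin 3 → P, ∀ t, ∃ i, σ (s i) t ∉ Z := by
  classical
  by_contra hcon
  push Not at hcon
  have h1 : (univ : Finset (Fin 3 → P)) ⊆
      univ.biUnion (fun t => Fintype.piFinset (fun _ : Fin 3 => univ.filter (fun s => σ s t ∈ Z))) := by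
    intro s _
    obtain ⟨t, ht⟩ := hcon s
    simp only [mem_biUnion, mem_univ, true_and, Fintype.mem_piFinset, mem_filter]
    exact ⟨t, ht⟩
  have h2 := card_le_card h1
  have h3 : ∀ t, (univ.filter (fun s => σ s t ∈ Z)).card ≤ Z.card := by
    intro t
    refine card_le_card_of_injOn (fun s => σ s t) ?_ ((hσ t).injOn)
    intro s hs
    simpa using hs
  have h4 : (univ.biUnion (fun t => Fintype.piFinset
      (fun _ : Fin 3 => univ.filter (fun s => σ s t ∈ Z)))).card ≤ Fintype.card P * Z.card ^ 3 := by
    refine le_trans card_biUnion_le ?_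
    calc _ ≤ ∑ _t : P, Z.card ^ 3 := by
          refine sum_le_sum (fun t _ => ?_)
          rw [Fintype.card_piFinset]
          simp only [prod_const, card_univ, Fintype.card_fin]
          exact Nat.pow_le_pow_left (h3 t) 3
      _ = _ := by simp
  rw [card_univ, Fintype.card_fun, Fintype.card_fin] at h2
  omega

lemma cover_no (σ : P → P → P) (hσ : ∀ s, Function.Injective (fun t => σ s t)) (Z : Finset P)
    (h : Fintype.card P ^ 3 * (3 * Z.card) ^ 8 < Fintype.card P ^ 8) :
    ∃ t : Fin 8 → P, ∀ s : Fin 3 → P, ∃ j, ∀ i, σ (s i) (t j) ∉ Z := by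
  classical
  by_contra hcon
  push Not at hcon
  have h1 : (univ : Finset (Fin 8 → P)) ⊆
      (univ : Finset (Fin 3 → P)).biUnion (fun s => Fintype.piFinset
        (fun _ : Fin 8 => univ.filter (fun t => ∃ i, σ (s i) t ∈ Z))) := by
    intro t _
    obtain ⟨s, hs⟩ := hcon t
    simp only [mem_biUnion, mem_univ, true_and, Fintype.mem_piFinset, mem_filter]
    exact ⟨s, hs⟩
  have h2 := card_le_card h1
  have h3 : ∀ s : Fin 3 → P, (univ.filter (fun t => ∃ i, σ (s i) t ∈ Z)).card ≤ 3 * Z.card := by
    intro s
    have hsub : univ.filter (fun t => ∃ i, σ (s i) t ∈ Z) ⊆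
        (univ : Finset (Fin 3)).biUnion (fun i => univ.filter (fun t => σ (s i) t ∈ Z)) := by
      intro t ht
      simpa using ht
    refine le_trans (card_le_card hsub) (le_trans card_biUnion_le ?_)
    calc _ ≤ ∑ _i : Fin 3, Z.card := by
          refine sum_le_sum (fun i _ => ?_)
          refine card_le_card_of_injOn (fun t => σ (s i) t) ?_ ((hσ (s i)).injOn)
          intro t ht
          simpa using ht
      _ = _ := by simp
  have h4 : ((univ : Finset (Fin 3 → P)).biUnion (fun s => Fintype.piFinset
      (fun _ : Fin 8 => univ.filter (fun t => ∃ i, σ (s i) t ∈ Z)))).card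
      ≤ Fintype.card P ^ 3 * (3 * Z.card) ^ 8 := by
    refine le_trans card_biUnion_le ?_
    calc _ ≤ ∑ _s : Fin 3 → P, (3 * Z.card) ^ 8 := by
          refine sum_le_sum (fun s _ => ?_)
          rw [Fintype.card_piFinset]
          simp only [prod_const, card_univ, Fintype.card_fin]
          exact Nat.pow_le_pow_left (h3 s) 8
      _ = _ := by simp
  rw [card_univ, Fintype.card_fun, Fintype.card_fin] at h2
  omega

end cover

lemma xor_inj_left {n : ℕ} (t : Pos n) :
    Function.Injective (fun s : Pos n => (fun k => xor (s k) (t k) : Pos n)) := by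
  intro a b hab
  funext k
  have := congrFun hab k
  simp only at this
  revert this
  cases a k <;> cases b k <;> cases t k <;> simp

lemma xor_inj_right {n : ℕ} (s : Pos n) :
    Function.Injective (fun t : Pos n => (fun k => xor (s k) (t k) : Pos n)) := by
  intro a b hab
  funext k
  have := congrFun hab k
  simp only at this
  revert this
  cases a k <;> cases b k <;> cases s k <;> simp

lemma threeEight {O : World} (hO : Valid O) (hP : Promise O) {n : ℕ} (hn : 13 ≤ n) :
    ThreeEight O n := by
  classical
  have hcardP : Fintype.card (Pos n) = 2 ^ n := by simp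
  constructor
  · intro hmaj
    have hz : count O n false ≤ 2 ^ (n / 2) := by
      rcases hP n with h | h
      · exact h
      · exact absurd hmaj (not_majority_of_ones hO (by omega) h)
    rw [count_eq] at hz
    have hlt : Fintype.card (Pos n) * (valSet (O n) false).card ^ 3 < Fintype.card (Pos n) ^ 3 := by
      rw [hcardP]
      calc 2 ^ n * (valSet (O n) false).card ^ 3 ≤ 2 ^ n * (2 ^ (n / 2)) ^ 3 :=
            Nat.mul_le_mul_left _ (Nat.pow_le_pow_left hz 3)
        _ = 2 ^ (n + n / 2 * 3) := by rw [← pow_mul, ← pow_add]
        _ < 2 ^ (n * 3) := Nat.pow_lt_pow_right (by norm_num) (by omega)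
        _ = (2 ^ n) ^ 3 := by rw [pow_mul]
    obtain ⟨s, hs⟩ := cover_yes (fun a b : Pos n => (fun k => xor (a k) (b k) : Pos n))
      xor_inj_left _ hlt
    refine ⟨s, fun t j => ?_⟩
    obtain ⟨i, hi⟩ := hs (t j)
    refine ⟨i, ?_⟩
    rcases hasValue_or hO n (fun k => xor (s i k) (t j k)) with h | h
    · exact h
    · exact absurd (mem_valSet h) hi
  · intro hmaj
    have hz : count O n true ≤ 2 ^ (n / 2) := by
      rcases hP n with h | h
      · exact absurd (majority_of_zeros hO (by omega) h) hmaj
      · exact h
    rw [count_eq] at hz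
    have hlt : Fintype.card (Pos n) ^ 3 * (3 * (valSet (O n) true).card) ^ 8
        < Fintype.card (Pos n) ^ 8 := by
      rw [hcardP]
      calc (2 ^ n) ^ 3 * (3 * (valSet (O n) true).card) ^ 8
          ≤ (2 ^ n) ^ 3 * (3 * 2 ^ (n / 2)) ^ 8 :=
            Nat.mul_le_mul_left _ (Nat.pow_le_pow_left (Nat.mul_le_mul_left _ hz) 8)
        _ = 6561 * 2 ^ (n * 3 + n / 2 * 8) := by
            rw [mul_pow, ← pow_mul, ← pow_mul, pow_add]; ring
        _ < 8192 * 2 ^ (n * 3 + n / 2 * 8) := by
            have : 0 < 2 ^ (n * 3 + n / 2 * 8) := by positivity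
            omega
        _ = 2 ^ (13 + (n * 3 + n / 2 * 8)) := by
            rw [pow_add 2 13]; norm_num
        _ ≤ 2 ^ (n * 8) := Nat.pow_le_pow_right (by norm_num) (by omega)
        _ = (2 ^ n) ^ 8 := by rw [pow_mul]
    obtain ⟨t, ht⟩ := cover_no (fun a b : Pos n => (fun k => xor (a k) (b k) : Pos n))
      xor_inj_right _ hlt
    refine ⟨t, fun s => ?_⟩
    obtain ⟨j, hj⟩ := ht s
    refine ⟨j, fun i => ?_⟩
    rcases hasValue_or hO n (fun k => xor (s i k) (t j k)) with h | h
    · exact absurd (mem_valSet h) (hj i)
    · exact h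

/-! ### Locality of algorithms at one length -/

/-- outputs of an algorithm when the oracle is arbitrary at length `n` -/
def Alg.outs (O : World) (n : ℕ) : Alg → Finset ℕ
  | .out r => {r}
  | .look k w next =>
    if k = n then Finset.univ.biUnion (fun a => (next a).outs O n) else (next (O k w)).outs O n

lemma Alg.run_mem_outs (O : World) (n : ℕ) (G : Wit n → Option (Pos n × Bool)) (T : Alg) :
    T.run (Function.update O n G) ∈ T.outs O n := by
  induction T with
  | out r => simp [Alg.run, Alg.outs]
  | look k w next ih =>
    by_cases hk : k = n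
    · simp only [Alg.run, Alg.outs, if_pos hk, mem_biUnion, mem_univ, true_and]
      exact ⟨_, ih _⟩
    · simp only [Alg.run, Alg.outs, if_neg hk]
      rw [Function.update_of_ne hk]
      exact ih _

lemma Alg.card_outs (O : World) (n : ℕ) (T : Alg) :
    ∀ t, T.AtMost t → (T.outs O n).card ≤ (2 ^ (n + 2)) ^ t := by
  induction T with
  | out r =>
    intro t _
    simp only [Alg.outs, card_singleton]
    exact Nat.one_le_pow _ _ (by positivity)
  | look k w next ih =>
    intro t ht
    cases t with
    | zero => exact absurd ht (by simp [Alg.AtMost])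
    | succ t =>
      have ht' : ∀ a, (next a).AtMost t := by simpa [Alg.AtMost] using ht
      by_cases hk : k = n
      · simp only [Alg.outs, if_pos hk]
        refine le_trans card_biUnion_le ?_
        calc ∑ a : Option (Pos k × Bool), ((next a).outs O n).card
            ≤ ∑ _a : Option (Pos k × Bool), (2 ^ (n + 2)) ^ t := sum_le_sum (fun a _ => ih a t (ht' a))
          _ = (2 ^ k * 2 + 1) * (2 ^ (n + 2)) ^ t := by
              simp [Fintype.card_option, Fintype.card_prod]
          _ ≤ 2 ^ (n + 2) * (2 ^ (n + 2)) ^ t := by
              refine Nat.mul_le_mul_right _ ?_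
              subst hk
              have : 1 ≤ 2 ^ k := Nat.one_le_two_pow
              calc 2 ^ k * 2 + 1 ≤ 2 ^ k * 4 := by omega
                _ = 2 ^ (k + 2) := by rw [pow_add]; norm_num
          _ = (2 ^ (n + 2)) ^ (t + 1) := by rw [pow_succ _ t, mul_comm]
      · simp only [Alg.outs, if_neg hk]
        refine le_trans (ih _ t (ht' _)) ?_
        exact Nat.pow_le_pow_right (by positivity) (Nat.le_succ t)

lemma Alg.local (O : World) (n : ℕ) (T : Alg) :
    ∀ t, T.AtMost t → ∀ G : Wit n → Option (Pos n × Bool), ∃ S : Finset (Wit n), S.card ≤ t ∧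
      ∀ G' : Wit n → Option (Pos n × Bool), (∀ w ∈ S, G' w = G w) →
        T.run (Function.update O n G') = T.run (Function.update O n G) := by
  induction T with
  | out r =>
    intro t _ G
    exact ⟨∅, by simp, fun _ _ => rfl⟩
  | look k w next ih =>
    intro t ht G
    cases t with
    | zero => exact absurd ht (by simp [Alg.AtMost])
    | succ t =>
      have ht' : ∀ a, (next a).AtMost t := by simpa [Alg.AtMost] using ht
      by_cases hk : k = n
      · subst hk
        obtain ⟨S, hS, hS'⟩ := ih (G w) t (ht' _) G
        refine ⟨insert w S, le_trans (card_insert_le _ _) (by omega), fun G' hG' => ?_⟩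
        have h1 : G' w = G w := hG' w (mem_insert_self _ _)
        simp only [Alg.run, Function.update_self]
        rw [h1]
        exact hS' G' (fun v hv => hG' v (mem_insert_of_mem hv))
      · obtain ⟨S, hS, hS'⟩ := ih (O k w) t (ht' _) G
        refine ⟨S, by omega, fun G' hG' => ?_⟩
        simp only [Alg.run, Function.update_of_ne hk]
        exact hS' G' hG'

/-- largest length of a look-up -/
def Alg.maxLen : Alg → ℕ
  | .out _ => 0
  | .look k _ next => max k (Finset.univ.sup (fun a => (next a).maxLen))

lemma Alg.run_congr (O O' : World) (T : Alg) (h : ∀ k ≤ T.maxLen, O k = O' k) :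
    T.run O = T.run O' := by
  induction T with
  | out r => rfl
  | look k w next ih =>
    simp only [Alg.run]
    have h1 : O k = O' k := h k (le_max_left _ _)
    rw [h1]
    refine ih _ (fun j hj => h j (le_trans hj ?_))
    exact le_trans (Finset.le_sup (f := fun a => (next a).maxLen) (mem_univ (O' k w)))
      (le_max_right _ _)

/-! ### One stage -/

lemma card_bound {V : Verifier} {n : ℕ} (hn : 32 ≤ n) (hV : V.len n + V.cost n ≤ 2 ^ (n / 8)) :
    V.cost n * (2 * (V.len n + (n + 2) * V.cost n) + 1) ≤ 2 ^ (n / 2) := by
  set q := n / 8 with hq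
  have hq4 : 4 ≤ q := by omega
  have hn8 : n ≤ 8 * q + 7 := by omega
  have hc : V.cost n ≤ 2 ^ q := by omega
  have hl : V.len n ≤ 2 ^ q := by omega
  have h1 : 2 * (V.len n + (n + 2) * V.cost n) + 1 ≤ (2 * n + 7) * 2 ^ q := by
    have h1' : (n + 2) * V.cost n ≤ (n + 2) * 2 ^ q := Nat.mul_le_mul_left _ hc
    have h2' : 1 ≤ 2 ^ q := Nat.one_le_two_pow
    nlinarith
  have hpow' : 2 * n + 7 ≤ 2 ^ (2 * q) := by
    have : ∀ q, 4 ≤ q → 2 * (8 * q + 7) + 7 ≤ 2 ^ (2 * q) := by
      intro q hq
      induction q, hq using Nat.le_induction with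
      | base => norm_num
      | succ q hq ih =>
        have : 2 ^ (2 * (q + 1)) = 4 * 2 ^ (2 * q) := by
          rw [show 2 * (q + 1) = 2 * q + 2 by ring, pow_add]; ring
        rw [this]
        omega
    have := this q hq4
    omega
  calc V.cost n * (2 * (V.len n + (n + 2) * V.cost n) + 1)
      ≤ 2 ^ q * ((2 * n + 7) * 2 ^ q) := Nat.mul_le_mul hc h1
    _ ≤ 2 ^ q * (2 ^ (2 * q) * 2 ^ q) := Nat.mul_le_mul_left _ (Nat.mul_le_mul_right _ hpow')
    _ = 2 ^ (4 * q) := by rw [← pow_add, ← pow_add]; congr 1; ring
    _ ≤ 2 ^ (n / 2) := Nat.pow_le_pow_right (by norm_num) (by omega)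

lemma stage (V : Verifier) (O : World) (hO : Valid O) (hP : Promise O) {n : ℕ} (hn : 32 ≤ n)
    (hV : V.len n + V.cost n ≤ 2 ^ (n / 8)) :
    ∃ G : Wit n → Option (Pos n × Bool), Valid (Function.update O n G) ∧
      Promise (Function.update O n G) ∧ ¬ V.Correct (Function.update O n G) n := by
  classical
  by_contra hcon
  push Not at hcon
  have hval : ∀ G : Wit n → Option (Pos n × Bool), OneValid G → Valid (Function.update O n G) := by
    intro G hG k
    by_cases hk : k = n
    · subst hk
      rw [Function.update_self]
      exact hG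
    · rw [Function.update_of_ne hk]
      exact hO k
  have hcount : ∀ (G : Wit n → Option (Pos n × Bool)) (b : Bool),
      count (Function.update O n G) n b = (valSet G b).card := by
    intro G b
    rw [count_eq, Function.update_self]
  have hprom : ∀ (G : Wit n → Option (Pos n × Bool)) (b : Bool), (valSet G b).card ≤ 2 ^ (n / 2) →
      Promise (Function.update O n G) := by
    intro G b hb k
    by_cases hk : k = n
    · subst hk
      rw [hcount, hcount]
      cases b
      · exact Or.inl hb
      · exact Or.inr hb
    · have h1 : ∀ b, count (Function.update O n G) k b = count O k b := by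
        intro b
        rw [count_eq, count_eq, Function.update_of_ne hk]
      rw [h1, h1]
      exact hP k
  have hb := card_bound hn hV
  refine Pool.Agent.H.MP_7934a7_lc.core
    (A := fun (y : Fin (V.len n) → Bool) G => (V.left n y).run (Function.update O n G))
    (B := fun (z : Fin (V.len n) → Bool) G => (V.right n z).run (Function.update O n G))
    (dec := fun p q => V.decide n p.1 q.1 p.2 q.2) (t := V.cost n)
    (M := V.len n + (n + 2) * V.cost n)
    (fun y G => (V.left n y).local O n _ (V.left_cost n y) G)
    (fun z G => (V.right n z).local O n _ (V.right_cost n z) G)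
    (univ.biUnion (fun y => ((V.left n y).outs O n).image (fun r => (y, r))))
    (univ.biUnion (fun z => ((V.right n z).outs O n).image (fun r => (z, r))))
    ?_ ?_ ?_ ?_ (2 ^ (n / 2)) hb ?_ ?_ ?_
  · refine le_trans card_biUnion_le ?_
    calc _ ≤ ∑ _y : Fin (V.len n) → Bool, (2 ^ (n + 2)) ^ V.cost n := by
          refine sum_le_sum (fun y _ => le_trans card_image_le ?_)
          exact (V.left n y).card_outs O n _ (V.left_cost n y)
      _ = 2 ^ (V.len n + (n + 2) * V.cost n) := by
          simp [pow_add, pow_mul]
  · refine le_trans card_biUnion_le ?_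
    calc _ ≤ ∑ _y : Fin (V.len n) → Bool, (2 ^ (n + 2)) ^ V.cost n := by
          refine sum_le_sum (fun z _ => le_trans card_image_le ?_)
          exact (V.right n z).card_outs O n _ (V.right_cost n z)
      _ = 2 ^ (V.len n + (n + 2) * V.cost n) := by
          simp [pow_add, pow_mul]
  · intro y G _
    simp only [mem_biUnion, mem_univ, true_and, mem_image]
    exact ⟨y, _, (V.left n y).run_mem_outs O n G, rfl⟩
  · intro z G _
    simp only [mem_biUnion, mem_univ, true_and, mem_image]
    exact ⟨z, _, (V.right n z).run_mem_outs O n G, rfl⟩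
  · have h1 : Fintype.card (Pos n) = 2 ^ n := by simp
    have h2 : Fintype.card (Wit n) = 2 ^ (2 * n + 1) := by simp
    rw [h1, h2]
    have h3 : 2 ^ (n / 2) ≤ 2 ^ n := Nat.pow_le_pow_right (by norm_num) (by omega)
    have h4 : 2 ^ (n + 1) ≤ 2 ^ (2 * n + 1) := Nat.pow_le_pow_right (by norm_num) (by omega)
    have h5 : 2 ^ (n + 1) = 2 ^ n * 2 := pow_succ 2 n
    omega
  · intro G hG hc
    have hmaj : Majority (Function.update O n G) n :=
      majority_of_zeros (hval G hG) (by omega) (by rw [hcount]; exact hc)
    exact (hcon G (hval G hG) (hprom G false hc)).1 hmaj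
  · intro G hG hc
    have hmaj : ¬ Majority (Function.update O n G) n :=
      not_majority_of_ones (hval G hG) (by omega) (by rw [hcount]; exact hc)
    exact (hcon G (hval G hG) (hprom G true hc)).2 hmaj

/-! ### The diagonal construction -/

/-- stages: an admissible oracle and the length below which it is final -/
def Stage : Type := {p : World × ℕ // Valid p.1 ∧ Promise p.1}

lemma next_stage (V : Verifier) (hV : ∀ N, ∃ n ≥ N, V.len n + V.cost n ≤ 2 ^ (n / 8)) (s : Stage) :
    ∃ s' : Stage, s.1.2 < s'.1.2 ∧ (∀ k < s.1.2, s'.1.1 k = s.1.1 k) ∧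
      ∃ n ≥ s.1.2, ∀ O' : World, (∀ k < s'.1.2, O' k = s'.1.1 k) → ¬ V.Correct O' n := by
  classical
  obtain ⟨⟨O, h⟩, hO, hP⟩ := s
  obtain ⟨n, hn, hsmall⟩ := hV (max h 32)
  have hn1 : h ≤ n := le_trans (le_max_left _ _) hn
  have hn2 : 32 ≤ n := le_trans (le_max_right _ _) hn
  obtain ⟨G, h1, h2, h3⟩ := stage V O hO hP hn2 hsmall
  let H : ℕ := max n (max (univ.sup (fun y => (V.left n y).maxLen))
    (univ.sup (fun z => (V.right n z).maxLen))) + 1
  refine ⟨⟨(Function.update O n G, H), h1, h2⟩, ?_, ?_, n, hn1, ?_⟩
  · have : n ≤ max n (max (univ.sup (fun y => (V.left n y).maxLen))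
      (univ.sup (fun z => (V.right n z).maxLen))) := le_max_left _ _
    simp only [H]
    omega
  · intro k hk
    simp only at hk ⊢
    exact Function.update_of_ne (by omega) _ _
  · intro O' hO' hcor
    apply h3
    have hn3 : O' n = Function.update O n G n := hO' n (by
      simp only [H]
      exact Nat.lt_succ_of_le (le_max_left _ _))
    have hmaj : Majority O' n ↔ Majority (Function.update O n G) n := by
      unfold Majority
      rw [count_eq, count_eq, count_eq, count_eq, hn3]
    have hval : ∀ y z, V.value O' n y z = V.value (Function.update O n G) n y z := by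
      intro y z
      unfold Verifier.value
      have hl : (V.left n y).run O' = (V.left n y).run (Function.update O n G) := by
        refine Alg.run_congr _ _ _ (fun k hk => hO' k ?_)
        simp only [H]
        refine Nat.lt_succ_of_le (le_trans hk ?_)
        exact le_trans (Finset.le_sup (f := fun y => (V.left n y).maxLen) (mem_univ y))
          (le_trans (le_max_left _ _) (le_max_right _ _))
      have hr : (V.right n z).run O' = (V.right n z).run (Function.update O n G) := by
        refine Alg.run_congr _ _ _ (fun k hk => hO' k ?_)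
        simp only [H]
        refine Nat.lt_succ_of_le (le_trans hk ?_)
        exact le_trans (Finset.le_sup (f := fun z => (V.right n z).maxLen) (mem_univ z))
          (le_trans (le_max_right _ _) (le_max_right _ _))
      rw [hl, hr]
    unfold Verifier.Correct at hcor ⊢
    rw [hmaj] at hcor
    simp only [hval] at hcor
    exact hcor

/-- an admissible oracle -/
lemma exists_base : ∃ O : World, Valid O ∧ Promise O := by
  classical
  have h : ∀ n, ∃ G : Wit n → Option (Pos n × Bool), OneValid G ∧ (valSet G false).card ≤ 0 := by
    intro n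
    have hc : Fintype.card (Pos n) ≤ Fintype.card (Wit n) := by
      simp only [Fintype.card_fun, Fintype.card_bool, Fintype.card_fin]
      exact Nat.pow_le_pow_right (by norm_num) (by omega)
    obtain ⟨e⟩ := Function.Embedding.nonempty_of_card_le hc
    let G₀ : Wit n → Option (Pos n × Bool) := fun w =>
      if h : ∃ u, e u = w then some (h.choose, true) else none
    have hG : OneValid G₀ := by
      intro u
      have hex : ∃ u', e u' = e u := ⟨u, rfl⟩
      have hch : hex.choose = u := e.injective hex.choose_spec
      refine ⟨e u, ⟨true, ?_⟩, ?_⟩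
      · simp only [G₀, dif_pos hex, hch]
      · rintro w ⟨b, hb⟩
        by_cases hw : ∃ u', e u' = w
        · simp only [G₀, dif_pos hw, Option.some.injEq, Prod.mk.injEq] at hb
          rw [← hb.1]
          exact hw.choose_spec.symm
        · simp only [G₀, dif_neg hw] at hb
          exact absurd hb (by simp)
    obtain ⟨G, h1, -, h3⟩ := Pool.Agent.H.MP_7934a7_lc.exists_completion G₀ hG ∅ true
      (by simpa using hc)
    exact ⟨G, h1, by simpa using h3⟩
  choose G hG using h
  refine ⟨G, fun n => (hG n).1, fun n => Or.inl ?_⟩
  rw [count_eq]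
  exact le_trans (hG n).2 (Nat.zero_le _)

/-- **Main theorem.** For every sequence of verifiers with supplied witnesses whose string
lengths and costs are, infinitely often, at most `2^(n/8)` (in particular for all polynomially
bounded ones), there is an oracle with the promise for which the tally language of the majority
is decided by three shifts against eight (with access to the certified values), while every
verifier of the sequence is wrong at infinitely many lengths. -/
theorem result (V : ℕ → Verifier)
    (hV : ∀ i N, ∃ n ≥ N, (V i).len n + (V i).cost n ≤ 2 ^ (n / 8)) :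
    ∃ O : World, Valid O ∧ Promise O ∧ (∀ n ≥ 13, ThreeEight O n) ∧
      ∀ i N, ∃ n ≥ N, ¬ (V i).Correct O n := by
  classical
  obtain ⟨O₀, hO₀, hP₀⟩ := exists_base
  let nxt : ℕ → Stage → Stage := fun j s =>
    (next_stage (V (Nat.unpair j).1) (hV _) s).choose
  have hnxt := fun (j : ℕ) (s : Stage) => (next_stage (V (Nat.unpair j).1) (hV _) s).choose_spec
  let S : ℕ → Stage := fun j => Nat.rec ⟨(O₀, 0), hO₀, hP₀⟩ (fun j s => nxt j s) j
  have hS : ∀ j, S (j + 1) = nxt j (S j) := fun j => rfl
  have hlt : ∀ j, (S j).1.2 < (S (j + 1)).1.2 := by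
    intro j
    rw [hS]
    exact (hnxt j (S j)).1
  have hge : ∀ j, j ≤ (S j).1.2 := by
    intro j
    induction j with
    | zero => exact Nat.zero_le _
    | succ j ih =>
      have := hlt j
      omega
  have hmono : ∀ i j, i ≤ j → (S i).1.2 ≤ (S j).1.2 := by
    intro i j hij
    induction j, hij using Nat.le_induction with
    | base => exact le_rfl
    | succ j _ ih => exact le_trans ih (hlt j).le
  have hagree : ∀ i j, i ≤ j → ∀ k < (S i).1.2, (S j).1.1 k = (S i).1.1 k := by
    intro i j hij
    induction j, hij using Nat.le_induction with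
    | base => intro k _; rfl
    | succ j hj ih =>
      intro k hk
      rw [hS]
      rw [← ih k hk]
      exact (hnxt j (S j)).2.1 k (lt_of_lt_of_le hk (hmono i j hj))
  let O : World := fun k => (S (k + 1)).1.1 k
  have hO : ∀ j, ∀ k < (S j).1.2, O k = (S j).1.1 k := by
    intro j k hk
    rcases le_total (k + 1) j with h | h
    · exact (hagree (k + 1) j h k (hge (k + 1))).symm
    · exact hagree j (k + 1) h k hk
  have hOv : Valid O := fun n => (S (n + 1)).2.1 n
  have hOp : Promise O := by
    intro n
    have h1 : ∀ b, count O n b = count (S (n + 1)).1.1 n b := by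
      intro b
      rw [count_eq, count_eq]
    rw [h1, h1]
    exact (S (n + 1)).2.2 n
  refine ⟨O, hOv, hOp, fun n hn => threeEight hOv hOp hn, ?_⟩
  intro i N
  obtain ⟨n, hn, hbad⟩ := (hnxt (Nat.pair i N) (S (Nat.pair i N))).2.2
  refine ⟨n, ?_, ?_⟩
  · have h1 : N ≤ Nat.pair i N := Nat.right_le_pair i N
    have h2 := hge (Nat.pair i N)
    omega
  · have h3 : (Nat.unpair (Nat.pair i N)).1 = i := by simp
    have h4 := hbad O (fun k hk => by
      have := hO (Nat.pair i N + 1) k (by rw [hS]; exact hk)
      rw [this, hS])
    rw [h3] at h4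
    exact h4

end Pool.Agent.Results.MP_7934a7_lc.SuppliedWitnesses
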